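import Pool.Agent.Lib.MP_994fee_co.FB.Defs53

/-!
# Forest plus bounded degree, abstract form (several guesses, blocks): definitions
-/

set_option autoImplicit false

namespace Pool.Agent.Lib.MP_994fee_co.FB

open Finset

variable {V C : Type} [DecidableEq V] [DecidableEq C]

/-- The cost of a forest for the vertex `y`, with price `N` for the watchers. -/
def costN (N : ℕ) (Hn : V → Finset V) (y : V) : Fr V → ℕ
  | .nil => 0
  | .cons x b t => ((if y ∈ Hn x then 1 else 0) +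
      (if y ∈ b.roots ∪ Hn x then N else 1) * costN N Hn y b) + costN N Hn y t

/-- `P` is a good set of candidates for `j` worlds. -/
def Cand (Test : Finset C → Prop) : ℕ → Finset C → Prop
  | 0, P => P.Nonempty
  | j + 1, P => ∀ R ⊆ P, (∃ E ⊆ P \ R, Test E) ∨ Cand Test j R

/-- What is needed of the tests and of the palettes: `w` worlds, `N₀` candidates, `D` coordinates. -/
structure Hyp (V : Type) [DecidableEq V] (D w N₀ : ℕ) (Test : Finset C → Prop)
    (Pal : ℕ → Finset C → Prop) : Prop where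
  test_nonempty : ∀ E, Test E → E.Nonempty
  test_card : ∀ E, Test E → E.card ≤ w
  pal_anti : ∀ k k' M, k ≤ k' → Pal k' M → Pal k M
  cand : ∀ M, Pal 0 M → ∃ P ⊆ M, P.card ≤ N₀ ∧ Cand Test w P
  ram : ∀ (A : Type) [Fintype A] [DecidableEq A], Fintype.card A ≤ 2 ^ w → ∀ (Y : Finset V),
    Y.card ≤ D → ∀ f : (V → C) → A, (∀ c c' : V → C, (∀ y ∈ Y, c y = c' y) → f c = f c') →
    ∀ (M : V → Finset C) (m : V → ℕ), (∀ y ∈ Y, Pal (m y + 1) (M y)) →
    ∃ M' : V → Finset C, (∀ y, M' y ⊆ M y) ∧ (∀ y ∉ Y, M' y = M y) ∧ (∀ y ∈ Y, Pal (m y) (M' y)) ∧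
      ∀ c c' : V → C, (∀ y ∈ Y, c y ∈ M' y) → (∀ y ∈ Y, c' y ∈ M' y) → f c = f c'

end Pool.Agent.Lib.MP_994fee_co.FB
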