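import Pool.Agent.Lib.MP_994fee_co.FB.ADefs53

/-!
# Forest plus bounded degree, abstract form: the main induction
-/

set_option autoImplicit false

namespace Pool.Agent.Lib.MP_994fee_co.FB

open Finset

variable {V C : Type} [DecidableEq V] [DecidableEq C]

/-- The roots are vertices. -/
theorem aroots_sub (F : Fr V) : F.roots ⊆ F.nodes := by
  induction F with
  | nil => simp [Fr.roots]
  | cons x b t _ iht =>
      intro v hv
      simp only [Fr.roots, Fr.nodes, mem_insert, mem_union] at hv ⊢
      rcases hv with h | h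
      · exact Or.inl h
      · exact Or.inr (Or.inr (iht h))

theorem cand_nonempty {Test : Finset C → Prop} (ht : ∀ E, Test E → E.Nonempty) :
    ∀ (j : ℕ) (P : Finset C), Cand Test j P → P.Nonempty := by
  intro j
  induction j with
  | zero => intro P h; exact h
  | succ j ih =>
      intro P h
      rcases h ∅ (empty_subset _) with ⟨E, hE, hT⟩ | h
      · exact (ht E hT).mono (hE.trans sdiff_subset)
      · exact absurd (ih ∅ h) (by simp)

/-- A state: `W` are the colours on `A`, `M` the palettes elsewhere; the vertices of `Fi` are wrong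
for all colourings which are left. -/
def AGood (ok : V → (V → C) → Prop) (Fi A : Finset V) (W : V → C) (M : V → Finset C) : Prop :=
  ∀ v ∈ Fi, ∀ c : V → C, (∀ w ∈ A, c w = W w) → (∀ y, y ∉ A → c y ∈ M y) → ok v c

omit [DecidableEq V] [DecidableEq C] in
theorem AGood.mono {ok : V → (V → C) → Prop} {Fi A : Finset V} {W : V → C} {M M' : V → Finset C}
    (h : AGood ok Fi A W M) (hM : ∀ y, y ∉ A → M' y ⊆ M y) : AGood ok Fi A W M' := by
  intro v hv c hc hy
  exact h v hv c hc fun y hyA => hM y hyA (hy y hyA)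

omit [DecidableEq C] in
theorem AGood.opened {ok : V → (V → C) → Prop} {Fi A : Finset V} {W : V → C} {M : V → Finset C}
    (h : AGood ok Fi A W M) {x : V} (hx : x ∉ A) {a : C} (ha : a ∈ M x) :
    AGood ok Fi (insert x A) (Function.update W x a) M := by
  intro v hv c hc hy
  refine h v hv c (fun w hw => ?_) (fun y hyA => ?_)
  · have hwx : w ≠ x := fun e => hx (e ▸ hw)
    rw [hc w (mem_insert_of_mem hw), Function.update_of_ne hwx]
  · by_cases hyx : y = x
    · subst hyx
      rw [hc y (mem_insert_self _ _), Function.update_self]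
      exact ha
    · exact hy y (by simp [hyx, hyA])

section Main

variable (w N₀ : ℕ) (Pal : ℕ → Finset C → Prop) (G : SimpleGraph V)
  (Hn : V → Finset V) (ok : V → (V → C) → Prop)

/-- The statement about the worlds `e ∈ E` with common palettes on `Wt`. -/
def Fam (F₀ : Fr V) : Prop :=
  ∀ (E : Finset C), E.card ≤ w → E.Nonempty →
    ∀ (u : Option V) (A Fi Wt : Finset V) (W : C → V → C) (M : C → V → Finset C) (k : V → ℕ),
    Wf G Hn u F₀ → F₀.Nod → (∀ v ∈ F₀.nodes, v ∉ A) → (∀ v, u = some v → v ∈ A) → Fi ⊆ A →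
    F₀.roots ⊆ Wt → (∀ e ∈ E, AGood ok Fi A (W e) (M e)) →
    (∀ e ∈ E, ∀ e' ∈ E, ∀ y ∈ Wt, y ∉ A → M e y = M e' y) →
    (∀ e ∈ E, ∀ y, y ∉ A →
      Pal (k y + (if y ∈ Wt then w * N₀ else 1) * costN (w * N₀) Hn y F₀) (M e y)) →
    ∃ (W' : C → V → C) (M' : C → V → Finset C),
      (∀ e ∈ E, AGood ok (Fi ∪ F₀.nodes) (A ∪ F₀.nodes) (W' e) (M' e)) ∧
      (∀ e ∈ E, ∀ z ∈ A, W' e z = W e z) ∧
      (∀ e ∈ E, ∀ y, y ∉ A ∪ F₀.nodes → M' e y ⊆ M e y) ∧
      (∀ e ∈ E, ∀ e' ∈ E, ∀ y ∈ Wt, y ∉ A ∪ F₀.nodes → M' e y = M' e' y) ∧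
      (∀ e ∈ E, ∀ e' ∈ E, ∀ r ∈ F₀.roots, W' e r = W' e' r) ∧
      (∀ e ∈ E, ∀ y, y ∉ A ∪ F₀.nodes → Pal (k y) (M' e y))

/-- The cost of one tree. -/
def costBN (N : ℕ) (Hn : V → Finset V) (x : V) (b : Fr V) (y : V) : ℕ :=
  (if y ∈ Hn x then 1 else 0) + (if y ∈ b.roots ∪ Hn x then N else 1) * costN N Hn y b

variable {w N₀ Pal G Hn ok} {D : ℕ} {Test : Finset C → Prop}

theorem asingle (hH : Hyp V D w N₀ Test Pal) (hD : ∀ x, (Hn x).card ≤ D)
    (hok : ∀ v (c c' : V → C), c v = c' v → (∀ z, G.Adj v z → c z = c' z) → ok v c → ok v c')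
    (hthin : ∀ v (c : V → C) E, Test E → ∃ e ∈ E, ok v (Function.update c v e))
    (x : V) (b : Fr V) (ih : Fam w N₀ Pal G Hn ok b)
    (u : Option V) (A Fi : Finset V) (W : V → C) (M : V → Finset C) (k : V → ℕ)
    (hx : ∀ z, G.Adj x z → u = some z ∨ z ∈ b.roots ∨ (z ∈ Hn x ∧ z ∉ b.nodes))
    (hb : Wf G Hn (some x) b) (hN : b.Nod) (hxb : x ∉ b.nodes) (hbA : ∀ v ∈ b.nodes, v ∉ A)
    (hxA : x ∉ A) (hu : ∀ v, u = some v → v ∈ A) (hFA : Fi ⊆ A) (hgood : AGood ok Fi A W M)
    (E : Finset C) (hE : Test E) (hEM : E ⊆ M x)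
    (hs : ∀ y, y ∉ A → Pal (k y + costBN (w * N₀) Hn x b y) (M y)) :
    ∃ a ∈ E, ∃ (W' : V → C) (M' : V → Finset C),
      AGood ok (insert x (Fi ∪ b.nodes)) (insert x (A ∪ b.nodes)) W' M' ∧ W' x = a ∧
      (∀ z ∈ A, W' z = W z) ∧ (∀ y, y ∉ insert x (A ∪ b.nodes) → M' y ⊆ M y) ∧
      (∀ y, y ∉ insert x (A ∪ b.nodes) → Pal (k y) (M' y)) := by
  classical
  obtain ⟨e₀, he₀⟩ := hH.test_nonempty E hE
  have hsz : ∀ e ∈ E, ∀ y, y ∉ insert x A → Pal ((k y + if y ∈ Hn x then 1 else 0) +
      (if y ∈ b.roots ∪ Hn x then w * N₀ else 1) * costN (w * N₀) Hn y b)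
      ((fun _ : C => M) e y) := by
    intro e _ y hy
    have := hs y (fun h => hy (mem_insert_of_mem h))
    rw [costBN, ← add_assoc] at this
    exact this
  obtain ⟨W₁, M₁, g₁, e₁, s₁, hM, hr, c₁⟩ :=
    ih E (hH.test_card E hE) ⟨e₀, he₀⟩ (some x) (insert x A) Fi (b.roots ∪ Hn x)
      (fun e => Function.update W x e) (fun _ => M) (fun y => k y + if y ∈ Hn x then 1 else 0)
      hb hN
      (fun v hv => by
        simp only [mem_insert, not_or]
        exact ⟨fun e => hxb (e ▸ hv), hbA v hv⟩)
      (fun v hv => by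
        simp only [Option.some.injEq] at hv
        simp [← hv])
      (hFA.trans (subset_insert _ _)) subset_union_left
      (fun e he => hgood.opened hxA (hEM he)) (fun _ _ _ _ _ _ _ => rfl) hsz
  have hA2 : insert x A ∪ b.nodes = insert x (A ∪ b.nodes) := insert_union _ _ _
  rw [hA2] at g₁ s₁ hM c₁
  set A2 := insert x (A ∪ b.nodes) with hA2def
  have hx2 : x ∈ A2 := mem_insert_self _ _
  have hWx : ∀ e ∈ E, W₁ e x = e := fun e he => by
    rw [e₁ e he x (mem_insert_self _ _), Function.update_self]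
  have hWA : ∀ e ∈ E, ∀ z ∈ A, W₁ e z = W z := fun e he z hz => by
    rw [e₁ e he z (mem_insert_of_mem hz),
      Function.update_of_ne (fun h : z = x => hxA (h ▸ hz))]
  have hnbr : ∀ z, G.Adj x z →
      (z ∈ A2 ∧ ∀ e ∈ E, ∀ e' ∈ E, W₁ e z = W₁ e' z) ∨ (z ∉ A2 ∧ z ∈ Hn x) := by
    intro z hz
    have hzx : z ≠ x := fun e => G.irrefl (e ▸ hz)
    by_cases hzA : z ∈ A
    · exact Or.inl ⟨mem_insert_of_mem (mem_union_left _ hzA), fun e he e' he' => by
        rw [hWA e he z hzA, hWA e' he' z hzA]⟩
    · rcases hx z hz with h | h | h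
      · exact absurd (hu z h) hzA
      · exact Or.inl ⟨mem_insert_of_mem (mem_union_right _ (aroots_sub b h)),
          fun e he e' he' => hr e he e' he' z h⟩
      · exact Or.inr ⟨by simp [hA2def, hzx, hzA, h.2], h.1⟩
  set Y := Hn x \ A2 with hY
  have hYM : ∀ e ∈ E, ∀ y ∈ Y, M₁ e₀ y = M₁ e y := fun e he y hy =>
    hM e₀ he₀ e he y (mem_union_right _ (mem_sdiff.1 hy).1) (mem_sdiff.1 hy).2
  let mg : C → (V → C) → V → C := fun e c z => if z ∈ A2 then W₁ e z else c z
  let f : (V → C) → ({e // e ∈ E} → Bool) := fun c e => decide (ok x (mg e c))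
  have hloc : ∀ e, ∀ c c' : V → C, (∀ y ∈ Y, c y = c' y) → ok x (mg e c) → ok x (mg e c') := by
    intro e c c' hcc
    refine hok x _ _ (by simp [mg, hx2]) fun z hz => ?_
    rcases hnbr z hz with h | h
    · simp [mg, h.1]
    · simp only [mg, h.1, if_false]
      exact hcc z (mem_sdiff.2 ⟨h.2, h.1⟩)
  have hf : ∀ c c' : V → C, (∀ y ∈ Y, c y = c' y) → f c = f c' := by
    intro c c' hcc
    funext e
    exact decide_eq_decide.2 ⟨hloc e c c' hcc, hloc e c' c fun y hy => (hcc y hy).symm⟩
  have hcardA : Fintype.card ({e // e ∈ E} → Bool) ≤ 2 ^ w := by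
    rw [Fintype.card_fun, Fintype.card_bool, Fintype.card_coe]
    exact Nat.pow_le_pow_right (by norm_num) (hH.test_card E hE)
  obtain ⟨Q, hQsub, hQoff, hQsz, hQc⟩ := hH.ram ({e // e ∈ E} → Bool) hcardA Y
    ((card_le_card sdiff_subset).trans (hD x)) f hf (M₁ e₀) k
    (fun y hy => by
      have h1 := (mem_sdiff.1 hy).1
      have h2 := c₁ e₀ he₀ y (mem_sdiff.1 hy).2
      simp only [h1, if_true] at h2
      exact h2)
  obtain ⟨e, he, hgo⟩ : ∃ e ∈ E, ∀ c : V → C, (∀ y ∈ Y, c y ∈ Q y) → ok x (mg e c) := by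
    by_cases hbox : ∃ c₀ : V → C, ∀ y ∈ Y, c₀ y ∈ Q y
    · obtain ⟨c₀, hc₀⟩ := hbox
      obtain ⟨e, he, hoke⟩ := hthin x (mg e₀ c₀) E hE
      have h1 : ok x (mg e c₀) := by
        refine hok x _ _ ?_ (fun z hz => ?_) hoke
        · simp [mg, hx2, hWx e he]
        · have hzx : z ≠ x := fun h => G.irrefl (h ▸ hz)
          rw [Function.update_of_ne hzx]
          rcases hnbr z hz with h | h
          · simp only [mg, h.1, if_true]
            exact h.2 e₀ he₀ e he
          · simp [mg, h.1]
      refine ⟨e, he, fun c hc => ?_⟩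
      have h2 : f c ⟨e, he⟩ = f c₀ ⟨e, he⟩ := by rw [hQc c c₀ hc hc₀]
      have h3 : f c₀ ⟨e, he⟩ = true := decide_eq_true h1
      rw [h3] at h2
      exact of_decide_eq_true h2
    · exact ⟨e₀, he₀, fun c hc => absurd ⟨c, hc⟩ hbox⟩
  refine ⟨e, he, W₁ e, fun y => if y ∈ Y then Q y else M₁ e y, ?_, hWx e he, hWA e he, ?_, ?_⟩
  · intro v hv c hc hcy
    rw [mem_insert] at hv
    rcases hv with rfl | hv
    · have hcc : mg e c = c := by
        funext z
        by_cases hz : z ∈ A2
        · simp only [mg, hz, if_true]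
          exact (hc z hz).symm
        · simp [mg, hz]
      have := hgo c fun y hy => by
        have := hcy y (mem_sdiff.1 hy).2
        simpa [hy] using this
      rwa [hcc] at this
    · refine g₁ e he v hv c hc fun y hy => ?_
      have := hcy y hy
      by_cases hyY : y ∈ Y
      · simp only [hyY, if_true] at this
        rw [← hYM e he y hyY]
        exact hQsub y this
      · simpa [hyY] using this
  · intro y hy
    by_cases hyY : y ∈ Y
    · simp only [hyY, if_true]
      exact (hQsub y).trans (s₁ e₀ he₀ y hy)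
    · simp only [hyY, if_false]
      exact s₁ e he y hy
  · intro y hy
    by_cases hyY : y ∈ Y
    · simp only [hyY, if_true]
      exact hQsz y hyY
    · simp only [hyY, if_false]
      have hyH : y ∉ Hn x := fun h => hyY (mem_sdiff.2 ⟨h, hy⟩)
      have := c₁ e he y hy
      simpa [hyH] using this

theorem afam (hH : Hyp V D w N₀ Test Pal) (hD : ∀ x, (Hn x).card ≤ D)
    (hok : ∀ v (c c' : V → C), c v = c' v → (∀ z, G.Adj v z → c z = c' z) → ok v c → ok v c')
    (hthin : ∀ v (c : V → C) E, Test E → ∃ e ∈ E, ok v (Function.update c v e))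
    (F₀ : Fr V) : Fam w N₀ Pal G Hn ok F₀ := by
  classical
  induction F₀ with
  | nil =>
      intro E _ _ u A Fi Wt W M k _ _ _ _ _ _ hg hM hP
      refine ⟨W, M, fun e he => ?_, fun _ _ _ _ => rfl, fun _ _ _ _ => Subset.rfl,
        fun e he e' he' y hy hyA => hM e he e' he' y hy (by simpa [Fr.nodes] using hyA),
        fun _ _ _ _ r hr => by simp [Fr.roots] at hr, fun e he y hy => ?_⟩
      · simpa [Fr.nodes] using hg e he
      · have := hP e he y (by simpa [Fr.nodes] using hy)
        simpa [costN] using this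
  | cons x b t ihb iht =>
      intro E hEw hEn u A Fi Wt W M k hwf hnod hnA hu hFA hroot hg hM hP
      obtain ⟨hx, hwb, hwt⟩ := hwf
      obtain ⟨hxb, hxt, hbt, hnb, hnt⟩ := hnod
      obtain ⟨e₀, he₀⟩ := hEn
      have hxW : x ∈ Wt := hroot (by simp [Fr.roots])
      have htW : t.roots ⊆ Wt := fun r hr => hroot (by simp [Fr.roots, hr])
      have hxA : x ∉ A := hnA x (by simp [Fr.nodes])
      have hbA : ∀ v ∈ b.nodes, v ∉ A := fun v hv => hnA v (by simp [Fr.nodes, hv])
      have htA : ∀ v ∈ t.nodes, v ∉ A := fun v hv => hnA v (by simp [Fr.nodes, hv])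
      set A' := insert x (A ∪ b.nodes) with hA'
      have hAA' : ∀ y, y ∉ A' → y ∉ A := fun y hy h =>
        hy (mem_insert_of_mem (mem_union_left _ h))
      have hxA' : x ∈ A' := mem_insert_self _ _
      obtain ⟨N, hN⟩ : ∃ N, N = w * N₀ := ⟨_, rfl⟩
      obtain ⟨kB, hkB⟩ : ∃ kB : V → ℕ, ∀ y, kB y = costBN (w * N₀) Hn x b y := ⟨_, fun _ => rfl⟩
      obtain ⟨kt, hkt⟩ : ∃ kt : V → ℕ, ∀ y, kt y = costN (w * N₀) Hn y t := ⟨_, fun _ => rfl⟩
      have hcost : ∀ y, costN (w * N₀) Hn y (Fr.cons x b t) = kB y + kt y := fun y => by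
        rw [hkB, hkt]; rfl
      simp only [hcost] at hP
      simp only [← hN] at hP
      -- records of runs
      let Rec : C → C → (V → Finset C) → Prop := fun e a Q =>
        ∃ (U : V → C) (P : V → Finset C), AGood ok (insert x (Fi ∪ b.nodes)) A' U P ∧ U x = a ∧
          (∀ z ∈ A, U z = W e z) ∧ (∀ y, y ∉ A' → P y ⊆ M e y) ∧
          (∀ y, y ∉ A' → y ∉ Wt → Pal (k y + kt y) (P y)) ∧
          (∀ y, y ∈ Wt → y ∉ A' → Q y ⊆ P y)
      have hRec : ∀ (e a : C) (Q Q' : V → Finset C), (∀ y, y ∈ Wt → y ∉ A' → Q' y ⊆ Q y) →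
          Rec e a Q → Rec e a Q' := by
        rintro e a Q Q' hQ ⟨U, P, h1, h2, h3, h4, h5, h6⟩
        exact ⟨U, P, h1, h2, h3, h4, h5, fun y hy hyA => (hQ y hy hyA).trans (h6 y hy hyA)⟩
      have hrun : ∀ e ∈ E, ∀ (Q : V → Finset C) (r : ℕ), r + 1 ≤ N →
          (∀ y, y ∈ Wt → y ∉ A' → Q y ⊆ M e₀ y) →
          (∀ y, y ∈ Wt → y ∉ A' → Pal (k y + N * kt y + (r + 1) * kB y) (Q y)) →
          ∀ T ⊆ M e₀ x, Test T → ∃ a ∈ T, ∃ Q' : V → Finset C,
            (∀ y, y ∈ Wt → y ∉ A' → Q' y ⊆ Q y) ∧
            (∀ y, y ∈ Wt → y ∉ A' → Pal (k y + N * kt y + r * kB y) (Q' y)) ∧ Rec e a Q' := by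
        intro e he Q r hr hQM hQP T hTM hT
        obtain ⟨a, ha, U, P, q, xx, ww, tt, zz⟩ := asingle hH hD hok hthin x b ihb u A Fi (W e)
          (fun y => if y ∈ Wt ∧ y ∉ A' then Q y else M e y)
          (fun y => if y ∈ Wt then k y + N * kt y + r * kB y else k y + kt y)
          hx hwb hnb hxb hbA hxA hu hFA
          ((hg e he).mono fun y hy => by
            by_cases h : y ∈ Wt ∧ y ∉ A'
            · simp only [h, not_false_eq_true, and_self, if_true]
              rw [hM e he e₀ he₀ y h.1 hy]
              exact hQM y h.1 h.2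
            · simp only [h, if_false]
              exact Subset.rfl) T hT
          (by
            simp only [hxA', not_true_eq_false, and_false, if_false]
            rw [hM e he e₀ he₀ x hxW hxA]
            exact hTM)
          (fun y hy => by
            rw [← hkB y]
            by_cases h : y ∈ Wt ∧ y ∉ A'
            · have h' := hQP y h.1 h.2
              simp only [h, not_false_eq_true, and_self, if_true]
              rwa [show k y + N * kt y + r * kB y + kB y = k y + N * kt y + (r + 1) * kB y by ring]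
            · simp only [h, if_false]
              have h' := hP e he y hy
              by_cases hyW : y ∈ Wt
              · simp only [hyW, if_true] at h' ⊢
                refine hH.pal_anti _ _ _ ?_ h'
                have h3 : (r + 1) * kB y ≤ N * kB y := Nat.mul_le_mul_right _ hr
                calc k y + N * kt y + r * kB y + kB y = k y + N * kt y + (r + 1) * kB y := by ring
                  _ ≤ k y + N * kt y + N * kB y := by omega
                  _ = k y + N * (kB y + kt y) := by ring
              · simp only [hyW, if_false] at h' ⊢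
                refine hH.pal_anti _ _ _ ?_ h'
                omega)
        refine ⟨a, ha, P, fun y hy hyA => ?_, fun y hy hyA => ?_, U, P, q, xx, ww,
          fun y hy => ?_, fun y hy hyW => ?_, fun y _ _ => Subset.rfl⟩
        · have := tt y hyA
          simpa [hy, hyA] using this
        · have := zz y hyA
          simpa [hy] using this
        · refine (tt y hy).trans ?_
          by_cases h : y ∈ Wt ∧ y ∉ A'
          · simp only [h, not_false_eq_true, and_self, if_true]
            rw [hM e he e₀ he₀ y h.1 (hAA' y hy)]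
            exact hQM y h.1 h.2
          · simp only [h, if_false]
            exact Subset.rfl
        · have := zz y hy
          simpa [hyW] using this
      have hinner : ∀ e ∈ E, ∀ P ⊆ M e₀ x, ∀ r₀ n : ℕ, r₀ + n ≤ N → ∀ R ⊆ P,
          (P \ R).card ≤ n → ∀ Q : V → Finset C, (∀ y, y ∈ Wt → y ∉ A' → Q y ⊆ M e₀ y) →
          (∀ y, y ∈ Wt → y ∉ A' → Pal (k y + N * kt y + (r₀ + n) * kB y) (Q y)) →
          (∀ a ∈ R, Rec e a Q) →
          ∃ R' ⊆ P, (¬ ∃ T ⊆ P \ R', Test T) ∧ ∃ Q' : V → Finset C,
            (∀ y, y ∈ Wt → y ∉ A' → Q' y ⊆ Q y) ∧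
            (∀ y, y ∈ Wt → y ∉ A' → Pal (k y + N * kt y + r₀ * kB y) (Q' y)) ∧
            ∀ a ∈ R', Rec e a Q' := by
        intro e he P hPM r₀ n
        induction n with
        | zero =>
            intro _ R hR hcard Q hQM hQP hrec
            refine ⟨R, hR, ?_, Q, fun _ _ _ => Subset.rfl, hQP, hrec⟩
            rintro ⟨T, hT, hTT⟩
            obtain ⟨a, ha⟩ := hH.test_nonempty T hTT
            have : 0 < (P \ R).card := card_pos.2 ⟨a, hT ha⟩
            omega
        | succ n ihn =>
            intro hle R hR hcard Q hQM hQP hrec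
            by_cases h : ∃ T ⊆ P \ R, Test T
            · obtain ⟨T, hT, hTT⟩ := h
              obtain ⟨a, ha, Q₁, hQ₁, hQ₁P, hra⟩ := hrun e he Q (r₀ + n) (by omega) hQM
                (fun y hy hyA => by
                  have := hQP y hy hyA
                  rwa [← add_assoc] at this) T
                ((hT.trans sdiff_subset).trans hPM) hTT
              have haPR : a ∈ P \ R := hT ha
              have haP : a ∈ P := (mem_sdiff.1 haPR).1
              obtain ⟨R', hR', hno, Q', hQ', hQ'P, hrec'⟩ := ihn (by omega) (insert a R)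
                (insert_subset haP hR)
                (by
                  have h1 : P \ insert a R ⊂ P \ R := by
                    refine (ssubset_iff_of_subset (sdiff_subset_sdiff Subset.rfl
                      (subset_insert _ _))).2 ⟨a, haPR, by simp⟩
                  have h2 := card_lt_card h1
                  omega) Q₁
                (fun y hy hyA => (hQ₁ y hy hyA).trans (hQM y hy hyA)) hQ₁P
                (fun a' ha' => by
                  rcases mem_insert.1 ha' with rfl | h
                  · exact hra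
                  · exact hRec e a' Q Q₁ hQ₁ (hrec a' h))
              exact ⟨R', hR', hno, Q', fun y hy hyA => (hQ' y hy hyA).trans (hQ₁ y hy hyA),
                hQ'P, hrec'⟩
            · refine ⟨R, hR, h, Q, fun _ _ _ => Subset.rfl, fun y hy hyA => ?_, hrec⟩
              refine hH.pal_anti _ _ _ ?_ (hQP y hy hyA)
              have : r₀ * kB y ≤ (r₀ + (n + 1)) * kB y := Nat.mul_le_mul_right _ (by omega)
              omega
      have houter : ∀ E' : Finset C, E' ⊆ E → ∃ P' ⊆ M e₀ x, P'.card ≤ N₀ ∧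
          Cand Test (w - E'.card) P' ∧ ∃ Q : V → Finset C,
            (∀ y, y ∈ Wt → y ∉ A' → Q y ⊆ M e₀ y) ∧
            (∀ y, y ∈ Wt → y ∉ A' →
              Pal (k y + N * kt y + ((w - E'.card) * N₀) * kB y) (Q y)) ∧
            ∀ e ∈ E', ∀ a ∈ P', Rec e a Q := by
        intro E'
        induction E' using Finset.induction_on with
        | empty =>
            intro _
            obtain ⟨P, hPM, hPc, hPC⟩ := hH.cand (M e₀ x)
              (hH.pal_anti _ _ _ (Nat.zero_le _) (hP e₀ he₀ x hxA))
            refine ⟨P, hPM, hPc, by simpa using hPC, M e₀, fun _ _ _ => Subset.rfl,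
              fun y hy hyA => ?_, by simp⟩
            have h' := hP e₀ he₀ y (hAA' y hyA)
            simp only [hy, if_true] at h'
            refine hH.pal_anti _ _ _ (le_of_eq ?_) h'
            simp only [card_empty, Nat.sub_zero]
            rw [← hN]
            ring
        | insert e E'' hne ihE =>
            intro hsub
            have he : e ∈ E := hsub (mem_insert_self _ _)
            obtain ⟨P', hP'M, hP'c, hP'C, Q, hQM, hQP, hrec⟩ :=
              ihE ((subset_insert _ _).trans hsub)
            have hcE : E''.card + 1 ≤ w := by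
              have h1 := card_le_card hsub
              rw [card_insert_of_notMem hne] at h1
              omega
            obtain ⟨j, hj⟩ : ∃ j, w - E''.card = j + 1 := ⟨w - E''.card - 1, by omega⟩
            have hjw : j + 1 ≤ w := by omega
            have hcard' : w - (insert e E'').card = j := by
              rw [card_insert_of_notMem hne]
              omega
            rw [hj] at hP'C hQP
            obtain ⟨R', hR', hno, Q', hQ', hQ'P, hrec'⟩ := hinner e he P' hP'M (j * N₀) N₀
              (by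
                rw [hN]
                calc j * N₀ + N₀ = (j + 1) * N₀ := by ring
                  _ ≤ w * N₀ := Nat.mul_le_mul_right _ hjw) ∅ (empty_subset _)
              (by simpa using hP'c) Q hQM
              (fun y hy hyA => by
                have := hQP y hy hyA
                rwa [show (j + 1) * N₀ = j * N₀ + N₀ by ring] at this) (by simp)
            refine ⟨R', hR'.trans hP'M, (card_le_card hR').trans hP'c, ?_, Q',
              fun y hy hyA => (hQ' y hy hyA).trans (hQM y hy hyA), ?_, ?_⟩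
            · rw [hcard']
              rcases hP'C R' hR' with h | h
              · exact absurd h hno
              · exact h
            · rw [hcard']
              exact hQ'P
            · intro e' he' a ha
              rcases mem_insert.1 he' with rfl | h
              · exact hrec' a ha
              · exact hRec e' a Q Q' hQ' (hrec e' h a (hR' ha))
      obtain ⟨P', hP'M, -, hP'C, Q, hQM, hQP, hrec⟩ := houter E Subset.rfl
      obtain ⟨a, ha⟩ := cand_nonempty hH.test_nonempty _ _ hP'C
      have hch : ∀ e, ∃ (U : V → C) (P : V → Finset C), e ∈ E →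
          (AGood ok (insert x (Fi ∪ b.nodes)) A' U P ∧ U x = a ∧
          (∀ z ∈ A, U z = W e z) ∧ (∀ y, y ∉ A' → P y ⊆ M e y) ∧
          (∀ y, y ∉ A' → y ∉ Wt → Pal (k y + kt y) (P y)) ∧
          (∀ y, y ∈ Wt → y ∉ A' → Q y ⊆ P y)) := by
        intro e
        by_cases he : e ∈ E
        · obtain ⟨U, P, h⟩ := hrec e he a ha
          exact ⟨U, P, fun _ => h⟩
        · exact ⟨W e, M e, fun h => absurd h he⟩
      choose U P hUP using hch
      -- the rest of the forest
      obtain ⟨Z, O, r₁, e₁, s₁, hMM, hrr, c₁⟩ :=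
        iht E hEw ⟨e₀, he₀⟩ u A' (insert x (Fi ∪ b.nodes)) Wt U
          (fun e y => if y ∈ Wt then Q y else P e y) k hwt hnt
          (fun v hv => by
            simp only [hA', mem_insert, mem_union, not_or]
            exact ⟨fun e => hxt (e ▸ hv), htA v hv, fun h => disjoint_left.1 hbt h hv⟩)
          (fun v hv => mem_insert_of_mem (mem_union_left _ (hu v hv)))
          (insert_subset_insert _ (union_subset_union_left hFA)) htW
          (fun e he => (hUP e he).1.mono fun y hy => by
            by_cases h : y ∈ Wt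
            · simp only [h, if_true]
              exact (hUP e he).2.2.2.2.2 y h hy
            · simp only [h, if_false]
              exact Subset.rfl)
          (fun e _ e' _ y hy _ => by simp [hy])
          (fun e he y hy => by
            rw [← hkt y, ← hN]
            by_cases h : y ∈ Wt
            · simp only [h, if_true]
              refine hH.pal_anti _ _ _ ?_ (hQP y h hy)
              omega
            · simp only [h, if_false, one_mul]
              exact (hUP e he).2.2.2.2.1 y hy h)
      have hAn : A' ∪ t.nodes = A ∪ (Fr.cons x b t).nodes := by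
        ext v
        simp only [hA', Fr.nodes, mem_insert, mem_union]
        tauto
      have hFn : insert x (Fi ∪ b.nodes) ∪ t.nodes = Fi ∪ (Fr.cons x b t).nodes := by
        ext v
        simp only [Fr.nodes, mem_insert, mem_union]
        tauto
      rw [hAn] at r₁ s₁ hMM c₁
      rw [hFn] at r₁
      have hAA2 : ∀ y, y ∉ A ∪ (Fr.cons x b t).nodes → y ∉ A' := fun y hy h => hy (by
        simp only [hA', Fr.nodes, mem_insert, mem_union] at h ⊢
        tauto)
      refine ⟨Z, O, r₁, fun e he z hz => ?_, fun e he y hy => ?_, hMM,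
        fun e he e' he' r hr => ?_, c₁⟩
      · rw [e₁ e he z (mem_insert_of_mem (mem_union_left _ hz)), (hUP e he).2.2.1 z hz]
      · refine (s₁ e he y hy).trans ?_
        by_cases h : y ∈ Wt
        · simp only [h, if_true]
          exact ((hUP e he).2.2.2.2.2 y h (hAA2 y hy)).trans
            ((hUP e he).2.2.2.1 y (hAA2 y hy))
        · simp only [h, if_false]
          exact (hUP e he).2.2.2.1 y (hAA2 y hy)
      · simp only [Fr.roots, mem_insert] at hr
        rcases hr with rfl | hr
        · rw [e₁ e he r hxA', e₁ e' he' r hxA', (hUP e he).2.1, (hUP e' he').2.1]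
        · exact hrr e he e' he' r hr

/-- The core in abstract form: a colouring for which all vertices are fine. -/
theorem acore (hH : Hyp V D w N₀ Test Pal) (hw : 1 ≤ w) (hD : ∀ x, (Hn x).card ≤ D)
    (hok : ∀ v (c c' : V → C), c v = c' v → (∀ z, G.Adj v z → c z = c' z) → ok v c → ok v c')
    (hthin : ∀ v (c : V → C) E, Test E → ∃ e ∈ E, ok v (Function.update c v e))
    (F₀ : Fr V) (hN : F₀.Nod) (hall : ∀ v, v ∈ F₀.nodes) (hwf : Wf G Hn none F₀) (B : ℕ)
    (hB : ∀ y, costN (w * N₀) Hn y F₀ ≤ B) (M₀ : Finset C)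
    (hM₀ : Pal ((w * N₀ + 1) * B) M₀) : ∃ c : V → C, ∀ v, ok v c := by
  classical
  obtain ⟨P, hPM, -, hPC⟩ := hH.cand M₀ (hH.pal_anti _ _ _ (Nat.zero_le _) hM₀)
  obtain ⟨a, ha⟩ := cand_nonempty hH.test_nonempty _ _ hPC
  obtain ⟨W, M, hgood, -⟩ := afam hH hD hok hthin F₀ {a} (by simpa using hw) ⟨a, by simp⟩ none
    ∅ ∅ F₀.roots (fun _ _ => a) (fun _ _ => M₀) (fun _ => 0) hwf hN (by simp) (by simp)
    (by simp) Subset.rfl (by intro e _ v hv; simp at hv) (fun _ _ _ _ _ _ _ => rfl)
    (fun e _ y _ => by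
      refine hH.pal_anti _ _ _ ?_ hM₀
      have h1 := hB y
      rw [zero_add]
      refine Nat.mul_le_mul ?_ h1
      split_ifs
      · exact Nat.le_succ _
      · omega)
  refine ⟨W a, fun v => hgood a (by simp) v (by simp [hall v]) (W a) (fun _ _ => rfl)
    fun y hy => ?_⟩
  exact absurd (by simp [hall y]) hy

end Main

end Pool.Agent.Lib.MP_994fee_co.FB
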