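import Mathlib

/-!
# An order of the vertices of a finite forest with at most one smaller neighbour
-/

set_option autoImplicit false

namespace Pool.Agent.Lib.MP_994fee_co.FB

open SimpleGraph

theorem exists_rank {V : Type} [Fintype V] (T : SimpleGraph V) (hT : T.IsAcyclic) :
    ∃ rk : V → ℕ, Function.Injective rk ∧ ∀ v, {w | T.Adj v w ∧ rk w < rk v}.ncard ≤ 1 := by
  classical
  let rep : V → V := fun v => (T.connectedComponentMk v).out
  have hrep : ∀ v, T.Reachable (rep v) v := fun v =>
    ConnectedComponent.exact (Quot.out_eq (T.connectedComponentMk v))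
  have hadj : ∀ v w, T.Adj v w → rep w = rep v := by
    intro v w h
    simp only [rep]
    rw [ConnectedComponent.sound h.reachable]
  let d : V → ℕ := fun v => T.dist (rep v) v
  let idx := Fintype.equivFin V
  let n := Fintype.card V
  let rk : V → ℕ := fun v => d v * n + idx v
  have hrk : ∀ v w, rk w < rk v → d w ≤ d v := by
    intro v w h
    by_contra hcon
    push Not at hcon
    have h1 : (d v + 1) * n ≤ d w * n := Nat.mul_le_mul_right n hcon
    have h2 : (idx v : ℕ) < n := (idx v).2
    have h3 : (d v + 1) * n = d v * n + n := by ring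
    simp only [rk] at h
    omega
  refine ⟨rk, ?_, ?_⟩
  · intro v w h
    have h1 : (idx v : ℕ) < n := (idx v).2
    have h2 : (idx w : ℕ) < n := (idx w).2
    have h3 := congrArg (· % n) h
    simp only [rk] at h3
    rw [Nat.mul_comm (d v) n, Nat.mul_comm (d w) n, Nat.mul_add_mod, Nat.mul_add_mod,
      Nat.mod_eq_of_lt h1, Nat.mod_eq_of_lt h2] at h3
    exact idx.injective (Fin.ext h3)
  · intro v
    obtain ⟨p, hp, hpl⟩ := (hrep v).exists_path_of_dist
    have key : ∀ w, T.Adj v w → rk w < rk v → w = p.penultimate := by
      intro w hw hlt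
      have hle := hrk v w hlt
      refine hT.eq_penultimate_of_adj_end hp hw ?_
      by_contra hns
      have hr : T.Reachable (rep v) w := (hrep v).trans hw.reachable
      obtain ⟨q, hq, hql⟩ := hr.exists_path_of_dist
      have h1 : v ∈ q.support := by
        by_contra hv
        exact hns (hT.mem_support_of_ne_mem_support_of_adj_of_isPath hp hq hw hv)
      have h2 := hT.path_concat hp hq hw h1
      have h3 : q.length = p.length + 1 := by
        rw [h2, Walk.length_concat]
      simp only [d] at hle
      rw [hadj v w hw] at hle
      omega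
    rw [Set.ncard_le_one_iff]
    intro a b ha hb
    rw [key a ha.1 ha.2, key b hb.1 hb.2]

end Pool.Agent.Lib.MP_994fee_co.FB
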