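import Mathlib

/-!
Ramsey theorem for products of finite sets of different sizes.
-/

namespace Pool.Agent.Lib.MP_994fee_co.FB

open Finset

/-- The size which is needed for `r` coordinates, `t` colours and sub-boxes of size `m`. -/
def RR : ℕ → ℕ → ℕ → ℕ
  | 0, _, m => m
  | r + 1, t, m => RR r (t ^ (t * m)) m + t * m

theorem RR_mono (r : ℕ) : ∀ (t t' m : ℕ), t ≤ t' → 1 ≤ t → RR r t m ≤ RR r t' m := by
  induction r with
  | zero => intro t t' m _ _; exact le_rfl
  | succ r ih =>
    intro t t' m h h1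
    unfold RR
    have h2 : t ^ (t * m) ≤ t' ^ (t' * m) :=
      (Nat.pow_le_pow_left h _).trans (Nat.pow_le_pow_right (h1.trans h) (Nat.mul_le_mul_right m h))
    exact Nat.add_le_add (ih _ _ m h2 (Nat.one_le_pow _ _ h1)) (Nat.mul_le_mul_right m h)

theorem le_RR (r : ℕ) : ∀ (t m : ℕ), m ≤ RR r t m := by
  induction r with
  | zero => intro t m; exact le_rfl
  | succ r ih =>
    intro t m
    unfold RR
    exact (ih _ m).trans (Nat.le_add_right _ _)

theorem mul_le_RR (r t m : ℕ) : t * m ≤ RR (r + 1) t m := by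
  rw [RR]
  exact Nat.le_add_left _ _

/-- Product Ramsey theorem: a map with at most `t` values which depends on the coordinates in `Y`,
`Y.card ≤ r`, is constant on a sub-box with sides of size `m y`, provided the sides of the box have
size at least `RR r t (m y)`. -/
theorem exists_box_const {V α : Type} [DecidableEq V] [DecidableEq α] (r : ℕ) :
    ∀ (t : ℕ) (κ : Type) [Fintype κ] [Nonempty κ] (_ : Fintype.card κ ≤ t) (Y : Finset V)
      (_ : Y.card ≤ r) (m : V → ℕ) (M : V → Finset α) (_ : ∀ y ∈ Y, RR r t (m y) ≤ (M y).card)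
      (F : (V → α) → κ) (_ : ∀ c c', (∀ y ∈ Y, c y = c' y) → F c = F c'),
      ∃ M' : V → Finset α, (∀ y, M' y ⊆ M y) ∧ (∀ y, y ∉ Y → M' y = M y) ∧
        (∀ y ∈ Y, m y ≤ (M' y).card) ∧ ∃ k, ∀ c, (∀ y ∈ Y, c y ∈ M' y) → F c = k := by
  classical
  induction r with
  | zero =>
    intro t κ _ _ hκ Y hY m M hM F hF
    have hY0 : Y = ∅ := by
      rw [← Finset.card_eq_zero]
      omega
    subst hY0
    refine ⟨M, fun y => subset_rfl, fun y _ => rfl, fun y hy => absurd hy (notMem_empty y), ?_⟩
    by_cases hα : Nonempty (V → α)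
    · obtain ⟨c0⟩ := hα
      exact ⟨F c0, fun c _ => hF c c0 fun y hy => absurd hy (notMem_empty y)⟩
    · exact ⟨Classical.arbitrary κ, fun c => absurd ⟨c⟩ hα⟩
  | succ r ih =>
    intro t κ _ _ hκ Y hY m M hM F hF
    rcases Y.eq_empty_or_nonempty with rfl | hne
    · refine ⟨M, fun y => subset_rfl, fun y _ => rfl, fun y hy => absurd hy (notMem_empty y), ?_⟩
      by_cases hα : Nonempty (V → α)
      · obtain ⟨c0⟩ := hα
        exact ⟨F c0, fun c _ => hF c c0 fun y hy => absurd hy (notMem_empty y)⟩
      · exact ⟨Classical.arbitrary κ, fun c => absurd ⟨c⟩ hα⟩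
    obtain ⟨y1, hy1, hmin⟩ := exists_min_image Y m hne
    have ht : 1 ≤ t := Nat.succ_le_of_lt (Fintype.card_pos.trans_le hκ)
    obtain ⟨A, hA, hAc⟩ := exists_subset_card_eq ((mul_le_RR r t (m y1)).trans (hM y1 hy1))
    let F' : (V → α) → (A → κ) := fun c a => F (Function.update c y1 a)
    have hcard : Fintype.card (A → κ) ≤ t ^ (t * m y1) := by
      rw [Fintype.card_fun, Fintype.card_coe, hAc]
      exact Nat.pow_le_pow_left hκ _
    obtain ⟨M', h1, h2, h3, π, h4⟩ := ih (t ^ (t * m y1)) (A → κ) hcard (Y.erase y1)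
      (by rw [card_erase_of_mem hy1]; omega) m M
      (by
        intro y hy
        have hyY := mem_of_mem_erase hy
        have h5 := hM y hyY
        rw [RR] at h5
        refine le_trans (RR_mono r _ _ _ (Nat.pow_le_pow_right ht
          (Nat.mul_le_mul_left t (hmin y hyY))) (Nat.one_le_pow _ _ ht)) ?_
        omega)
      F'
      (by
        intro c c' hcc
        funext a
        refine hF _ _ fun y hy => ?_
        by_cases h : y = y1
        · subst h
          rw [Function.update_self, Function.update_self]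
        · rw [Function.update_of_ne h, Function.update_of_ne h]
          exact hcc y (mem_erase.2 ⟨h, hy⟩))
    have hpig : ∃ k0 : κ, m y1 ≤ (univ.filter fun a : A => π a = k0).card := by
      by_contra hcon
      push Not at hcon
      have h5 : Fintype.card A = ∑ k0 : κ, (univ.filter fun a : A => π a = k0).card := by
        rw [← card_univ]
        exact card_eq_sum_card_fiberwise fun a _ => mem_univ _
      have h6 : ∑ k0 : κ, (univ.filter fun a : A => π a = k0).card < ∑ _k0 : κ, m y1 :=
        sum_lt_sum_of_nonempty univ_nonempty fun k0 _ => hcon k0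
      rw [sum_const, card_univ, smul_eq_mul, ← h5, Fintype.card_coe, hAc] at h6
      exact absurd (Nat.mul_le_mul_right (m y1) hκ) (not_le.2 h6)
    obtain ⟨k0, hk0⟩ := hpig
    let A' : Finset α := (univ.filter fun a : A => π a = k0).map ⟨Subtype.val, Subtype.val_injective⟩
    have hA'mem : ∀ a, a ∈ A' → ∃ h : a ∈ A, π ⟨a, h⟩ = k0 := by
      intro a ha
      rw [mem_map] at ha
      obtain ⟨b, hb, rfl⟩ := ha
      rw [mem_filter] at hb
      exact ⟨b.2, hb.2⟩
    refine ⟨Function.update M' y1 A', ?_, ?_, ?_, k0, ?_⟩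
    · intro y
      by_cases h : y = y1
      · subst h
        rw [Function.update_self]
        intro a ha
        obtain ⟨h7, _⟩ := hA'mem a ha
        exact hA h7
      · rw [Function.update_of_ne h]
        exact h1 y
    · intro y hy
      have h : y ≠ y1 := fun h => hy (h ▸ hy1)
      rw [Function.update_of_ne h]
      exact h2 y fun h8 => hy (mem_of_mem_erase h8)
    · intro y hy
      by_cases h : y = y1
      · subst h
        rw [Function.update_self, card_map]
        exact hk0
      · rw [Function.update_of_ne h]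
        exact h3 y (mem_erase.2 ⟨h, hy⟩)
    · intro c hc
      have h5 : c y1 ∈ A' := by
        have := hc y1 hy1
        rwa [Function.update_self] at this
      obtain ⟨h6, h7⟩ := hA'mem _ h5
      have h8 : F' c = π := by
        refine h4 c fun y hy => ?_
        have := hc y (mem_of_mem_erase hy)
        rwa [Function.update_of_ne (ne_of_mem_erase hy)] at this
      have h9 := congrFun h8 ⟨c y1, h6⟩
      rw [h7] at h9
      have h10 : Function.update c y1 (c y1) = c := Function.update_eq_self y1 c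
      change F (Function.update c y1 (c y1)) = k0 at h9
      rwa [h10] at h9

/-- The tower of sizes: `b` at the bottom, `D` coordinates and `t` colours in every step. -/
def gR (b D t : ℕ) : ℕ → ℕ
  | 0 => b
  | k + 1 => RR D t (gR b D t k)

theorem gR_zero (b D t : ℕ) : gR b D t 0 = b := rfl

theorem gR_succ (b D t k : ℕ) : gR b D t (k + 1) = RR D t (gR b D t k) := rfl

theorem gR_le_succ (b D t k : ℕ) : gR b D t k ≤ gR b D t (k + 1) := le_RR _ _ _

theorem gR_mono (b D t : ℕ) : Monotone (gR b D t) := monotone_nat_of_le_succ (gR_le_succ b D t)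

theorem le_gR (b D t k : ℕ) : b ≤ gR b D t k := gR_mono b D t (Nat.zero_le k)

/-- The closing step: the palettes of the at most `D` vertices in `Y` lose one level, and the
value of `F` becomes constant. -/
theorem close_const {V α : Type} [DecidableEq V] [DecidableEq α] (b D t : ℕ) {κ : Type}
    [Fintype κ] [Nonempty κ] (hκ : Fintype.card κ ≤ t) (Y : Finset V) (hY : Y.card ≤ D)
    (j : V → ℕ) (M : V → Finset α) (hM : ∀ y ∈ Y, gR b D t (j y + 1) ≤ (M y).card)
    (F : (V → α) → κ) (hF : ∀ c c', (∀ y ∈ Y, c y = c' y) → F c = F c') :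
    ∃ M' : V → Finset α, (∀ y, M' y ⊆ M y) ∧ (∀ y, y ∉ Y → M' y = M y) ∧
      (∀ y ∈ Y, gR b D t (j y) ≤ (M' y).card) ∧ ∃ k, ∀ c, (∀ y ∈ Y, c y ∈ M' y) → F c = k :=
  exists_box_const D t κ hκ Y hY (fun y => gR b D t (j y)) M hM F hF

/-- The closing step for a property. -/
theorem close_prop {V α : Type} [DecidableEq V] [DecidableEq α] (b D : ℕ) (Y : Finset V)
    (hY : Y.card ≤ D) (j : V → ℕ) (M : V → Finset α)
    (hM : ∀ y ∈ Y, gR b D 2 (j y + 1) ≤ (M y).card) (P : (V → α) → Prop)
    (hP : ∀ c c', (∀ y ∈ Y, c y = c' y) → (P c ↔ P c')) :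
    ∃ M' : V → Finset α, (∀ y, M' y ⊆ M y) ∧ (∀ y, y ∉ Y → M' y = M y) ∧
      (∀ y ∈ Y, gR b D 2 (j y) ≤ (M' y).card) ∧
      ((∀ c, (∀ y ∈ Y, c y ∈ M' y) → P c) ∨ (∀ c, (∀ y ∈ Y, c y ∈ M' y) → ¬ P c)) := by
  classical
  obtain ⟨M', h1, h2, h3, k, h4⟩ := close_const (κ := Bool) b D 2 (by simp) Y hY j M hM
    (fun c => decide (P c)) (fun c c' h => by rw [decide_eq_decide]; exact hP c c' h)
  refine ⟨M', h1, h2, h3, ?_⟩
  cases k with
  | true => exact Or.inl fun c hc => of_decide_eq_true (h4 c hc)
  | false => exact Or.inr fun c hc => of_decide_eq_false (h4 c hc)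

end Pool.Agent.Lib.MP_994fee_co.FB
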