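import Pool.Agent.Lib.MP_994fee_co.FB.Defs53
import Pool.Agent.Lib.MP_994fee_co.FB.Ramsey41

/-!
# The product theorem of Ramsey in the form of `FB/Defs53.lean`
-/

set_option autoImplicit false

namespace Pool.Agent.Lib.MP_994fee_co.FB

open Finset

theorem rs_eq_RR (r : ℕ) : ∀ t m, rs r t m = RR r t m := by
  induction r with
  | zero => intro t m; rfl
  | succ r ih =>
    intro t m
    rw [rs, RR, ih]

theorem gs_eq_gR (D k : ℕ) : gs D k = gR 3 D 2 k := by
  induction k with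
  | zero => rfl
  | succ k ih => rw [gs, gR_succ, ih, rs_eq_RR]

theorem gs_mono (D : ℕ) : Monotone (gs D) := by
  intro a b h
  rw [gs_eq_gR, gs_eq_gR]
  exact gR_mono 3 D 2 h

theorem three_le_gs (D k : ℕ) : 3 ≤ gs D k := by
  rw [gs_eq_gR]
  exact le_gR 3 D 2 k

/-- Row R: the product theorem of Ramsey. -/
theorem box_ramsey {V K A : Type} [DecidableEq V] [DecidableEq K] [Fintype A] [DecidableEq A]
    (r t : ℕ) (hA : Fintype.card A ≤ t)
    (Y : Finset V) (hY : Y.card ≤ r) (f : (V → K) → A)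
    (hf : ∀ c c' : V → K, (∀ y ∈ Y, c y = c' y) → f c = f c')
    (M : V → Finset K) (m : V → ℕ) (_hm : ∀ y ∈ Y, 1 ≤ m y)
    (hM : ∀ y ∈ Y, rs r t (m y) ≤ (M y).card) :
    ∃ M' : V → Finset K, (∀ y, M' y ⊆ M y) ∧ (∀ y ∉ Y, M' y = M y) ∧
      (∀ y ∈ Y, m y ≤ (M' y).card) ∧
      ∀ c c' : V → K, (∀ y ∈ Y, c y ∈ M' y) → (∀ y ∈ Y, c' y ∈ M' y) → f c = f c' := by
  rcases isEmpty_or_nonempty A with hE | hN
  · refine ⟨M, fun y => subset_rfl, fun y _ => rfl, fun y hy => ?_, fun c => (hE.false (f c)).elim⟩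
    have h := hM y hy
    rw [rs_eq_RR] at h
    exact (le_RR r t (m y)).trans h
  · obtain ⟨M', h1, h2, h3, k, h4⟩ := exists_box_const r t A hA Y hY m M
      (fun y hy => by rw [← rs_eq_RR]; exact hM y hy) f hf
    exact ⟨M', h1, h2, h3, fun c c' hc hc' => (h4 c hc).trans (h4 c' hc').symm⟩

end Pool.Agent.Lib.MP_994fee_co.FB
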