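import Pool.Agent.Lib.MP_994fee_co.FB.ADefs53
import Pool.Agent.Lib.MP_994fee_co.FB.Ramsey53

/-!
# Row J: palettes and tests are boxes
-/

set_option autoImplicit false

namespace Pool.Agent.Lib.MP_994fee_co.FB

open Finset

def Test53 (n ell : ℕ) (K : Type) [DecidableEq K] (E : Finset (Fin n → K)) : Prop :=
  ∃ B : Fin n → Finset K, (∀ i, (B i).card = ell) ∧ E = Fintype.piFinset B

def Pal53 (n : ℕ) (K : Type) [DecidableEq K] (gam : ℕ → ℕ) (k : ℕ) (M : Finset (Fin n → K)) :
    Prop :=
  ∃ B : Fin n → Finset K, (∀ i, gam k ≤ (B i).card) ∧ M = Fintype.piFinset B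

/-- The sides of the boxes of candidates for `j` worlds. -/
def mu53 (n ell : ℕ) : ℕ → ℕ
  | 0 => 1
  | j + 1 => rs n 2 (max ell (mu53 n ell j))

/-- The sides of the palettes. -/
def gam53 (n D w b : ℕ) : ℕ → ℕ
  | 0 => b
  | k + 1 => rs (D * n) (2 ^ w) (gam53 n D w b k)

theorem le_rs (r t m : ℕ) : m ≤ rs r t m := by
  rw [rs_eq_RR]
  exact le_RR r t m

theorem gam53_mono (n D w b : ℕ) : Monotone (gam53 n D w b) :=
  monotone_nat_of_le_succ fun k => le_rs _ _ (gam53 n D w b k)

theorem Cand.mono {C : Type} [DecidableEq C] {Test : Finset C → Prop} (j : ℕ) :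
    ∀ {Q R : Finset C}, Cand Test j Q → Q ⊆ R → Cand Test j R := by
  induction j with
  | zero => intro Q R h hQR; exact Finset.Nonempty.mono hQR h
  | succ j ih =>
    intro Q R h hQR R' hR'
    rcases h (R' ∩ Q) inter_subset_right with ⟨E, hE, hT⟩ | h1
    · refine Or.inl ⟨E, fun x hx => ?_, hT⟩
      have h2 := mem_sdiff.1 (hE hx)
      exact mem_sdiff.2 ⟨hQR h2.1, fun h3 => h2.2 (mem_inter.2 ⟨h3, h2.1⟩)⟩
    · exact Or.inr (ih h1 inter_subset_left)

theorem cand_box (n ell : ℕ) {K : Type} [DecidableEq K] (j : ℕ) :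
    ∀ B : Fin n → Finset K, (∀ i, mu53 n ell j ≤ (B i).card) →
      Cand (Test53 n ell K) j (Fintype.piFinset B) := by
  classical
  induction j with
  | zero =>
    intro B hB
    rw [Cand, Fintype.piFinset_nonempty]
    exact fun i => card_pos.1 (hB i)
  | succ j ih =>
    intro B hB R hR
    obtain ⟨M', h1, _, h3, k, h4⟩ := exists_box_const (V := Fin n) (α := K) n 2 Bool (by simp)
      univ (by rw [card_univ, Fintype.card_fin]) (fun _ => max ell (mu53 n ell j)) B
      (fun i _ => by rw [← rs_eq_RR]; exact hB i) (fun c => decide (c ∈ R))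
      (fun c c' h => by
        have : c = c' := funext fun i => h i (mem_univ i)
        rw [this])
    have hsub : Fintype.piFinset M' ⊆ Fintype.piFinset B := Fintype.piFinset_subset _ _ h1
    cases k with
    | true =>
      refine Or.inr ((ih M' fun i => (le_max_right _ _).trans (h3 i (mem_univ i))).mono j ?_)
      intro c hc
      exact of_decide_eq_true (h4 c fun i _ => (Fintype.mem_piFinset.1 hc) i)
    | false =>
      left
      have h5 : ∀ i, ∃ E ⊆ M' i, E.card = ell := fun i =>
        exists_subset_card_eq ((le_max_left _ _).trans (h3 i (mem_univ i)))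
      choose E hE hEc using h5
      refine ⟨Fintype.piFinset E, fun c hc => ?_, E, hEc, rfl⟩
      have h6 : c ∈ Fintype.piFinset M' := Fintype.piFinset_subset _ _ hE hc
      refine mem_sdiff.2 ⟨hsub h6, ?_⟩
      exact of_decide_eq_false (h4 c fun i _ => (Fintype.mem_piFinset.1 h6) i)

/-- Row J. -/
theorem hyp_box (n s D : ℕ) : ∃ (N₀ : ℕ) (gam : ℕ → ℕ), ∀ (V K : Type) [DecidableEq V]
    [DecidableEq K],
    Hyp V D ((n * s + 1) ^ n) N₀ (Test53 n (n * s + 1) K) (Pal53 n K gam) := by
  classical
  set w := (n * s + 1) ^ n with hw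
  set b := mu53 n (n * s + 1) w with hb
  refine ⟨b ^ n, gam53 n D w b, fun V K _ _ => ?_⟩
  refine ⟨?_, ?_, ?_, ?_, ?_⟩
  · rintro E ⟨B, hB, rfl⟩
    rw [Fintype.piFinset_nonempty]
    intro i
    rw [← card_pos, hB i]
    omega
  · rintro E ⟨B, hB, rfl⟩
    rw [Fintype.card_piFinset, prod_congr rfl fun i _ => hB i, prod_const, card_univ,
      Fintype.card_fin, hw]
  · rintro k k' M hk ⟨B, hB, rfl⟩
    exact ⟨B, fun i => (gam53_mono n D w b hk).trans (hB i), rfl⟩
  · rintro M ⟨B, hB, rfl⟩
    have h1 : ∀ i, ∃ E ⊆ B i, E.card = b := fun i => exists_subset_card_eq (hB i)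
    choose E hE hEc using h1
    refine ⟨Fintype.piFinset E, Fintype.piFinset_subset _ _ hE, ?_, ?_⟩
    · rw [Fintype.card_piFinset, prod_congr rfl fun i _ => hEc i, prod_const, card_univ,
        Fintype.card_fin]
    · exact cand_box n (n * s + 1) w E fun i => (hEc i).ge
  · intro A _ _ hA Y hY f hf M m hM
    have hM' : ∀ y : V, ∃ B : Fin n → Finset K, y ∈ Y →
        (∀ i, gam53 n D w b (m y + 1) ≤ (B i).card) ∧ M y = Fintype.piFinset B := by
      intro y
      by_cases hy : y ∈ Y
      · obtain ⟨B, h1, h2⟩ := hM y hy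
        exact ⟨B, fun _ => ⟨h1, h2⟩⟩
      · exact ⟨fun _ => ∅, fun h => absurd h hy⟩
    choose B hB using hM'
    obtain ⟨M1, h1, _, h3, h4⟩ := box_ramsey (V := V × Fin n) (K := K) (A := A) (D * n) (2 ^ w) hA
      (Y ×ˢ (univ : Finset (Fin n)))
      (by
        rw [card_product, card_univ, Fintype.card_fin]
        exact Nat.mul_le_mul_right n hY)
      (fun c => f fun y i => c (y, i))
      (fun c c' h => hf _ _ fun y hy => funext fun i => h (y, i) (mem_product.2 ⟨hy, mem_univ i⟩))
      (fun p => B p.1 p.2) (fun p => gam53 n D w b (m p.1))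
      (by
        intro p hp
        have h5 : b ≤ gam53 n D w b (m p.1) := gam53_mono n D w b (Nat.zero_le _)
        have h6 : 1 ≤ b := by
          rw [hb]
          have h7 : ∀ j, 1 ≤ mu53 n (n * s + 1) j := by
            intro j
            cases j with
            | zero => exact le_rfl
            | succ j => exact le_trans (by omega) ((le_max_left _ _).trans (le_rs n 2 _))
          exact h7 w
        exact h6.trans h5)
      (by
        intro p hp
        exact (hB p.1 (mem_product.1 hp).1).1 p.2)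
    refine ⟨fun y => if y ∈ Y then Fintype.piFinset fun i => M1 (y, i) else M y, ?_, ?_, ?_, ?_⟩
    · intro y
      by_cases hy : y ∈ Y
      · simp only [if_pos hy]
        rw [(hB y hy).2]
        exact Fintype.piFinset_subset _ _ fun i => h1 (y, i)
      · simp only [if_neg hy]
        exact subset_rfl
    · intro y hy
      simp only [if_neg hy]
    · intro y hy
      simp only [if_pos hy]
      exact ⟨fun i => M1 (y, i), fun i => h3 (y, i) (mem_product.2 ⟨hy, mem_univ i⟩), rfl⟩
    · intro c c' hc hc'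
      refine h4 (fun p => c p.1 p.2) (fun p => c' p.1 p.2) ?_ ?_
      · rintro ⟨y, i⟩ hp
        have hy := (mem_product.1 hp).1
        have h5 := hc y hy
        simp only [if_pos hy] at h5
        exact (Fintype.mem_piFinset.1 h5) i
      · rintro ⟨y, i⟩ hp
        have hy := (mem_product.1 hp).1
        have h5 := hc' y hy
        simp only [if_pos hy] at h5
        exact (Fintype.mem_piFinset.1 h5) i

end Pool.Agent.Lib.MP_994fee_co.FB
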