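import Mathlib

/-!
# Forest plus bounded degree: ordered forests, costs, sizes
-/

set_option autoImplicit false

namespace Pool.Agent.Lib.MP_994fee_co.FB

open Finset

/-- Ordered forests: `cons x b t` is a tree with root `x` and the forest `b` below it, followed by
the forest `t`. -/
inductive Fr (V : Type) where
  | nil : Fr V
  | cons (x : V) (b t : Fr V) : Fr V

variable {V : Type} [DecidableEq V]

/-- The roots. -/
def Fr.roots : Fr V → Finset V
  | .nil => ∅
  | .cons x _ t => insert x t.roots

/-- All vertices. -/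
def Fr.nodes : Fr V → Finset V
  | .nil => ∅
  | .cons x b t => insert x (b.nodes ∪ t.nodes)

/-- Every vertex occurs once. -/
def Fr.Nod : Fr V → Prop
  | .nil => True
  | .cons x b t => x ∉ b.nodes ∧ x ∉ t.nodes ∧ Disjoint b.nodes t.nodes ∧ b.Nod ∧ t.Nod

/-- `Wf G Hn u F`: the neighbours in `G` of a vertex `x` of `F` are its parent (`u` for the roots),
its children, and vertices of `Hn x`, which are not below `x`. -/
def Wf (G : SimpleGraph V) (Hn : V → Finset V) : Option V → Fr V → Prop
  | _, .nil => True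
  | u, .cons x b t => (∀ w, G.Adj x w → u = some w ∨ w ∈ b.roots ∨ (w ∈ Hn x ∧ w ∉ b.nodes)) ∧
      Wf G Hn (some x) b ∧ Wf G Hn u t

/-- The cost of a forest for the vertex `y`. -/
def cost (Hn : V → Finset V) (y : V) : Fr V → ℕ
  | .nil => 0
  | .cons x b t => ((if y ∈ Hn x then 1 else 0) +
      (if y ∈ b.roots ∪ Hn x then 3 else 1) * cost Hn y b) + cost Hn y t

/-- Sizes for the product theorem of Ramsey: `r` coordinates, `t` colours, wanted size `m`. -/
def rs : ℕ → ℕ → ℕ → ℕ
  | 0, _, m => m
  | r + 1, t, m => rs r (t ^ (t * m)) m + t * m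

/-- The sizes of the palettes. -/
def gs (D : ℕ) : ℕ → ℕ
  | 0 => 3
  | k + 1 => rs D 2 (gs D k)

end Pool.Agent.Lib.MP_994fee_co.FB
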