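import Mathlib
import Pool.Agent.Lib.MP_994fee_co.FB.Defs53

/-!
# Forest plus bounded degree: the ordered forest of a parent map
-/

set_option autoImplicit false

namespace Pool.Agent.Lib.MP_994fee_co.FB

open Finset Relation

variable {V : Type} [DecidableEq V]

/-- Keep the trees whose root satisfies `P`. -/
def Fr.filt (P : V → Bool) : Fr V → Fr V
  | .nil => .nil
  | .cons x b t => if P x then .cons x b (t.filt P) else t.filt P

/-- The roots below `x` are the children of `x`. -/
def Inner (par : V → Option V) : Fr V → Prop
  | .nil => True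
  | .cons x b t => (∀ y, y ∈ b.roots ↔ par y = some x) ∧ Inner par b ∧ Inner par t

lemma roots_sub (F : Fr V) : ∀ y, y ∈ F.roots → y ∈ F.nodes := by
  induction F with
  | nil => intro y hy; exact hy
  | cons x b t _ iht =>
    intro y hy
    simp only [Fr.roots, Finset.mem_insert] at hy
    simp only [Fr.nodes, Finset.mem_insert, Finset.mem_union]
    rcases hy with h | h
    · exact Or.inl h
    · exact Or.inr (Or.inr (iht y h))

lemma filt_roots (P : V → Bool) (F : Fr V) (y : V) :
    y ∈ (F.filt P).roots ↔ y ∈ F.roots ∧ P y = true := by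
  induction F with
  | nil => simp [Fr.filt, Fr.roots]
  | cons x b t _ iht =>
    by_cases hx : P x = true
    · simp only [Fr.filt, hx, if_true, Fr.roots, Finset.mem_insert, iht]
      constructor
      · rintro (h | h)
        · rw [h]; exact ⟨Or.inl rfl, hx⟩
        · exact ⟨Or.inr h.1, h.2⟩
      · rintro ⟨h | h, h'⟩
        · exact Or.inl h
        · exact Or.inr ⟨h, h'⟩
    · simp only [Fr.filt, hx, Fr.roots, Finset.mem_insert]
      rw [if_neg (by simp), iht]
      constructor
      · rintro ⟨h, h'⟩
        exact ⟨Or.inr h, h'⟩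
      · rintro ⟨h | h, h'⟩
        · rw [h] at h'; exact absurd h' hx
        · exact ⟨h, h'⟩

lemma filt_sub (P : V → Bool) (F : Fr V) : ∀ y, y ∈ (F.filt P).nodes → y ∈ F.nodes := by
  induction F with
  | nil => intro y hy; exact hy
  | cons x b t _ iht =>
    intro y hy
    by_cases hx : P x = true
    · simp only [Fr.filt, hx, if_true, Fr.nodes, Finset.mem_insert, Finset.mem_union] at hy ⊢
      rcases hy with h | h | h
      · exact Or.inl h
      · exact Or.inr (Or.inl h)
      · exact Or.inr (Or.inr (iht y h))
    · simp only [Fr.filt, hx] at hy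
      rw [if_neg (by simp)] at hy
      simp only [Fr.nodes, Finset.mem_insert, Finset.mem_union]
      exact Or.inr (Or.inr (iht y hy))

lemma filt_cover (P : V → Bool) (F : Fr V) :
    ∀ y, y ∈ F.nodes → y ∈ (F.filt P).nodes ∨ y ∈ (F.filt (fun v => !P v)).nodes := by
  induction F with
  | nil => intro y hy; exact Or.inl hy
  | cons x b t _ iht =>
    intro y hy
    simp only [Fr.nodes, Finset.mem_insert, Finset.mem_union] at hy
    by_cases hx : P x = true
    · have e1 : (Fr.cons x b t).filt P = Fr.cons x b (t.filt P) := by simp [Fr.filt, hx]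
      have e2 : (Fr.cons x b t).filt (fun v => !P v) = t.filt (fun v => !P v) := by
        simp [Fr.filt, hx]
      rw [e1, e2]
      simp only [Fr.nodes, Finset.mem_insert, Finset.mem_union]
      rcases hy with h | h | h
      · exact Or.inl (Or.inl h)
      · exact Or.inl (Or.inr (Or.inl h))
      · rcases iht y h with h' | h'
        · exact Or.inl (Or.inr (Or.inr h'))
        · exact Or.inr h'
    · have e1 : (Fr.cons x b t).filt P = t.filt P := by simp [Fr.filt, hx]
      have e2 : (Fr.cons x b t).filt (fun v => !P v) = Fr.cons x b (t.filt (fun v => !P v)) := by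
        simp [Fr.filt, hx]
      rw [e1, e2]
      simp only [Fr.nodes, Finset.mem_insert, Finset.mem_union]
      rcases hy with h | h | h
      · exact Or.inr (Or.inl h)
      · exact Or.inr (Or.inr (Or.inl h))
      · rcases iht y h with h' | h'
        · exact Or.inl h'
        · exact Or.inr (Or.inr (Or.inr h'))

lemma filt_disj (P : V → Bool) (F : Fr V) (hF : F.Nod) :
    Disjoint (F.filt P).nodes (F.filt (fun v => !P v)).nodes := by
  induction F with
  | nil => simp [Fr.filt, Fr.nodes]
  | cons x b t _ iht =>
    obtain ⟨h1, h2, h3, _, h5⟩ := hF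
    have h6 := iht h5
    rw [Finset.disjoint_left] at h3 h6 ⊢
    by_cases hx : P x = true
    · have e1 : (Fr.cons x b t).filt P = Fr.cons x b (t.filt P) := by simp [Fr.filt, hx]
      have e2 : (Fr.cons x b t).filt (fun v => !P v) = t.filt (fun v => !P v) := by
        simp [Fr.filt, hx]
      rw [e1, e2]
      intro y hy hy'
      simp only [Fr.nodes, Finset.mem_insert, Finset.mem_union] at hy
      rcases hy with h | h | h
      · rw [h] at hy'; exact h2 (filt_sub _ _ _ hy')
      · exact h3 h (filt_sub _ _ _ hy')
      · exact h6 h hy'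
    · have e1 : (Fr.cons x b t).filt P = t.filt P := by simp [Fr.filt, hx]
      have e2 : (Fr.cons x b t).filt (fun v => !P v) = Fr.cons x b (t.filt (fun v => !P v)) := by
        simp [Fr.filt, hx]
      rw [e1, e2]
      intro y hy' hy
      simp only [Fr.nodes, Finset.mem_insert, Finset.mem_union] at hy
      rcases hy with h | h | h
      · rw [h] at hy'; exact h2 (filt_sub _ _ _ hy')
      · exact h3 h (filt_sub _ _ _ hy')
      · exact h6 hy' h

lemma filt_nod (P : V → Bool) (F : Fr V) (hF : F.Nod) : (F.filt P).Nod := by
  induction F with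
  | nil => trivial
  | cons x b t _ iht =>
    obtain ⟨h1, h2, h3, h4, h5⟩ := hF
    by_cases hx : P x = true
    · have e1 : (Fr.cons x b t).filt P = Fr.cons x b (t.filt P) := by simp [Fr.filt, hx]
      rw [e1]
      refine ⟨h1, fun h => h2 (filt_sub _ _ _ h), ?_, h4, iht h5⟩
      rw [Finset.disjoint_left] at h3 ⊢
      exact fun y hy hy' => h3 hy (filt_sub _ _ _ hy')
    · have e1 : (Fr.cons x b t).filt P = t.filt P := by simp [Fr.filt, hx]
      rw [e1]
      exact iht h5

lemma filt_inner (par : V → Option V) (P : V → Bool) (F : Fr V) (hF : Inner par F) :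
    Inner par (F.filt P) := by
  induction F with
  | nil => trivial
  | cons x b t _ iht =>
    obtain ⟨h1, h2, h3⟩ := hF
    by_cases hx : P x = true
    · have e1 : (Fr.cons x b t).filt P = Fr.cons x b (t.filt P) := by simp [Fr.filt, hx]
      rw [e1]
      exact ⟨h1, h2, iht h3⟩
    · have e1 : (Fr.cons x b t).filt P = t.filt P := by simp [Fr.filt, hx]
      rw [e1]
      exact iht h3

lemma inner_above (par : V → Option V) (F : Fr V) (hF : Inner par F) : ∀ y, y ∈ F.nodes →
    ∃ r ∈ F.roots, ReflTransGen (fun b a => par b = some a) y r := by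
  induction F with
  | nil => intro y hy; exact absurd hy (Finset.notMem_empty y)
  | cons x b t ihb iht =>
    obtain ⟨h1, h2, h3⟩ := hF
    intro y hy
    simp only [Fr.nodes, Finset.mem_insert, Finset.mem_union] at hy
    simp only [Fr.roots, Finset.mem_insert]
    rcases hy with h | h | h
    · exact ⟨x, Or.inl rfl, by rw [h]⟩
    · obtain ⟨r, hr, hyr⟩ := ihb h2 y h
      exact ⟨x, Or.inl rfl, hyr.tail ((h1 r).1 hr)⟩
    · obtain ⟨r, hr, hyr⟩ := iht h3 y h
      exact ⟨r, Or.inr hr, hyr⟩

lemma wf_of_inner (G : SimpleGraph V) (Hn : V → Finset V) (par : V → Option V)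
    (hG : ∀ x w, G.Adj x w → par x = some w ∨ par w = some x ∨
      (w ∈ Hn x ∧ ¬ TransGen (fun b a => par b = some a) w x)) :
    ∀ (F : Fr V) (u : Option V), Inner par F → (∀ y ∈ F.roots, par y = u) → Wf G Hn u F := by
  intro F
  induction F with
  | nil => intro u _ _; trivial
  | cons x b t ihb iht =>
    rintro u ⟨h1, h2, h3⟩ hr
    refine ⟨?_, ihb (some x) h2 (fun y hy => (h1 y).1 hy), iht u h3 (fun y hy => hr y ?_)⟩
    · intro w hw
      rcases hG x w hw with h | h | ⟨h, h'⟩
      · left
        rw [← hr x (by simp [Fr.roots]), h]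
      · exact Or.inr (Or.inl ((h1 w).2 h))
      · refine Or.inr (Or.inr ⟨h, fun hwb => h' ?_⟩)
        obtain ⟨r, hrr, hwr⟩ := inner_above par b h2 w hwb
        exact TransGen.tail' hwr ((h1 r).1 hrr)
    · simp only [Fr.roots, Finset.mem_insert]
      exact Or.inr hy

/-- The ordered forest of a parent map. -/
lemma exists_forest [Fintype V] (rk : V → ℕ) (hrk : Function.Injective rk) (par : V → Option V)
    (hpar : ∀ v w, par v = some w → rk w < rk v) :
    ∃ F : Fr V, F.Nod ∧ (∀ v, v ∈ F.nodes) ∧ Inner par F ∧ ∀ y ∈ F.roots, par y = none := by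
  classical
  have key : ∀ j t : ℕ, j + t = (Finset.univ.sup rk) + 1 → ∃ F : Fr V, F.Nod ∧
      (∀ v, v ∈ F.nodes ↔ t ≤ rk v) ∧ Inner par F ∧
      ∀ v, v ∈ F.roots ↔ (t ≤ rk v ∧ ∀ w, par v = some w → rk w < t) := by
    intro j
    induction j with
    | zero =>
      intro t ht
      have hlt : ∀ v, ¬ t ≤ rk v := by
        intro v
        have := Finset.le_sup (f := rk) (Finset.mem_univ v)
        omega
      refine ⟨.nil, trivial, ?_, trivial, ?_⟩
      · intro v
        exact ⟨fun h => absurd h (Finset.notMem_empty v), fun h => absurd h (hlt v)⟩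
      · intro v
        exact ⟨fun h => absurd h (Finset.notMem_empty v), fun h => absurd h.1 (hlt v)⟩
    | succ j ih =>
      intro t ht
      obtain ⟨F, hN, hn, hI, hr⟩ := ih (t + 1) (by omega)
      by_cases hx : ∃ x, rk x = t
      · obtain ⟨x, hx⟩ := hx
        have hxF : x ∉ F.nodes := by
          rw [hn]; omega
        let P : V → Bool := fun v => decide (par v = some x)
        have hP : ∀ v, P v = true ↔ par v = some x := by
          intro v
          simp only [P, decide_eq_true_eq]
        have hP' : ∀ v, (!P v) = true ↔ par v ≠ some x := by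
          intro v
          simp only [P, Bool.not_eq_true', decide_eq_false_iff_not, ne_eq]
        refine ⟨.cons x (F.filt P) (F.filt (fun v => !P v)), ?_, ?_, ?_, ?_⟩
        · exact ⟨fun h => hxF (filt_sub _ _ _ h), fun h => hxF (filt_sub _ _ _ h),
            filt_disj P F hN, filt_nod P F hN, filt_nod _ F hN⟩
        · intro v
          simp only [Fr.nodes, Finset.mem_insert, Finset.mem_union]
          constructor
          · rintro (h | h | h)
            · rw [h, hx]
            · have := (hn v).1 (filt_sub _ _ _ h)
              omega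
            · have := (hn v).1 (filt_sub _ _ _ h)
              omega
          · intro h
            by_cases hv : v = x
            · exact Or.inl hv
            · have h1 : rk v ≠ t := fun h' => hv (hrk (h'.trans hx.symm))
              rcases filt_cover P F v ((hn v).2 (by omega)) with h2 | h2
              · exact Or.inr (Or.inl h2)
              · exact Or.inr (Or.inr h2)
        · refine ⟨?_, filt_inner par P F hI, filt_inner par _ F hI⟩
          intro y
          rw [filt_roots, hP, hr]
          constructor
          · rintro ⟨_, h⟩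
            exact h
          · intro h
            have h1 := hpar y x h
            refine ⟨⟨by omega, fun w hw => ?_⟩, h⟩
            rw [h] at hw
            have : x = w := Option.some.inj hw
            rw [← this]
            omega
        · intro v
          simp only [Fr.roots, Finset.mem_insert]
          rw [filt_roots, hP', hr]
          constructor
          · rintro (h | ⟨⟨h1, h2⟩, h3⟩)
            · rw [h]
              refine ⟨by omega, fun w hw => ?_⟩
              have := hpar x w hw
              omega
            · refine ⟨by omega, fun w hw => ?_⟩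
              have h4 := h2 w hw
              have h5 : rk w ≠ t := by
                intro h6
                apply h3
                rw [hw, hrk (h6.trans hx.symm)]
              omega
          · rintro ⟨h1, h2⟩
            by_cases hv : v = x
            · exact Or.inl hv
            · have h3 : rk v ≠ t := fun h' => hv (hrk (h'.trans hx.symm))
              refine Or.inr ⟨⟨by omega, fun w hw => ?_⟩, fun h4 => ?_⟩
              · have := h2 w hw
                omega
              · have := h2 x h4
                omega
      · have hne : ∀ v, rk v ≠ t := fun v h => hx ⟨v, h⟩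
        refine ⟨F, hN, ?_, hI, ?_⟩
        · intro v
          rw [hn]
          have := hne v
          omega
        · intro v
          rw [hr]
          have h1 := hne v
          constructor
          · rintro ⟨h2, h3⟩
            refine ⟨by omega, fun w hw => ?_⟩
            have h4 := h3 w hw
            have h5 := hne w
            omega
          · rintro ⟨h2, h3⟩
            refine ⟨by omega, fun w hw => ?_⟩
            have h4 := h3 w hw
            omega
  obtain ⟨F, hN, hn, hI, hr⟩ := key (Finset.univ.sup rk + 1) 0 (by omega)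
  refine ⟨F, hN, fun v => (hn v).2 (Nat.zero_le _), hI, ?_⟩
  intro y hy
  cases h : par y with
  | none => rfl
  | some w => exact absurd (((hr y).1 hy).2 w h) (Nat.not_lt_zero _)

/-- ROW B: the reduction, and the ordered forest. -/
theorem exists_fr {V : Type} [Fintype V] [DecidableEq V] (D : ℕ) (G T H : SimpleGraph V)
    (hG : G ≤ T ⊔ H)
    (hT : ∃ rk : V → ℕ, Function.Injective rk ∧ ∀ v, {w | T.Adj v w ∧ rk w < rk v}.ncard ≤ 1)
    (hH : ∀ v, {w | H.Adj v w}.ncard ≤ D) :
    ∃ (F : Fr V) (Hn : V → Finset V), F.Nod ∧ (∀ v, v ∈ F.nodes) ∧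
      (∀ x y, y ∈ Hn x → x ∈ Hn y) ∧ (∀ x, (Hn x).card ≤ 2 * D + 1) ∧ Wf G Hn none F := by
  classical
  obtain ⟨rk, hrk, hT1⟩ := hT
  -- the parent map of `T`
  have hp : ∀ v, ∃ p : Option V, (∀ w, p = some w → T.Adj v w ∧ rk w < rk v) ∧
      ∀ w, T.Adj v w → rk w < rk v → p = some w := by
    intro v
    by_cases h : ∃ w, T.Adj v w ∧ rk w < rk v
    · obtain ⟨w, hw⟩ := h
      refine ⟨some w, fun w' hw' => ?_, fun w' h1 h2 => ?_⟩
      · rw [← Option.some.inj hw']
        exact hw
      · have := (Set.ncard_le_one (Set.toFinite _)).1 (hT1 v) w hw w' ⟨h1, h2⟩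
        rw [this]
    · exact ⟨none, fun w hw => (by simp at hw),
        fun w h1 h2 => absurd ⟨w, h1, h2⟩ h⟩
  choose par₀ hp1 hp2 using hp
  let U : V → V → Prop := fun b a => par₀ b = some a
  have hUlt : ∀ b a, U b a → rk a < rk b := fun b a h => (hp1 b a h).2
  have hRle : ∀ b a, ReflTransGen U b a → rk a ≤ rk b := by
    intro b a h
    induction h with
    | refl => exact le_refl _
    | tail _ h2 ih => exact le_trans (hUlt _ _ h2).le ih
  have hTlt : ∀ b a, TransGen U b a → rk a < rk b := by
    intro b a h
    induction h with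
    | single h => exact hUlt _ _ h
    | tail _ h2 ih => exact lt_trans (hUlt _ _ h2) ih
  let Cut : V → Prop := fun x => ∃ u, par₀ x = some u ∧ ∃ h, H.Adj u h ∧ ReflTransGen U h x
  let par : V → Option V := fun x => if Cut x then none else par₀ x
  have hpar1 : ∀ x, Cut x → par x = none := fun x hx => by simp only [par, hx, if_true]
  have hpar2 : ∀ x, ¬ Cut x → par x = par₀ x := fun x hx => by simp only [par, hx, if_false]
  have hpar3 : ∀ x w, par x = some w → ¬ Cut x ∧ par₀ x = some w := by
    intro x w h
    by_cases hx : Cut x
    · rw [hpar1 x hx] at h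
      simp at h
    · rw [hpar2 x hx] at h
      exact ⟨hx, h⟩
  have hmono : ∀ b a, ReflTransGen (fun b a => par b = some a) b a → ReflTransGen U b a :=
    fun b a h => ReflTransGen.mono (fun x y hxy => (hpar3 x y hxy).2) _ _ h
  let Hn : V → Finset V := fun x => Finset.univ.filter (fun w => H.Adj x w ∨
    (Cut w ∧ par₀ w = some x) ∨ (Cut x ∧ par₀ x = some w))
  have hHn : ∀ x w, w ∈ Hn x ↔ H.Adj x w ∨ (Cut w ∧ par₀ w = some x) ∨
      (Cut x ∧ par₀ x = some w) := by
    intro x w
    simp only [Hn, Finset.mem_filter, Finset.mem_univ, true_and]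
  obtain ⟨F, hN, hn, hI, hr⟩ := exists_forest rk hrk par
    (fun v w h => hUlt v w (hpar3 v w h).2)
  refine ⟨F, Hn, hN, hn, ?_, ?_, ?_⟩
  · intro x y h
    rw [hHn] at h ⊢
    rcases h with h | h | h
    · exact Or.inl h.symm
    · exact Or.inr (Or.inr h)
    · exact Or.inr (Or.inl h)
  · intro x
    let A : Finset V := Finset.univ.filter (fun w => H.Adj x w)
    let B : Finset V := Finset.univ.filter (fun w => Cut w ∧ par₀ w = some x)
    let C : Finset V := Finset.univ.filter (fun w => Cut x ∧ par₀ x = some w)
    have hsub : Hn x ⊆ (A ∪ B) ∪ C := by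
      intro w hw
      rw [hHn] at hw
      simp only [A, B, C, Finset.mem_union, Finset.mem_filter, Finset.mem_univ, true_and]
      rcases hw with h | h | h
      · exact Or.inl (Or.inl h)
      · exact Or.inl (Or.inr h)
      · exact Or.inr h
    have hA : A.card ≤ D := by
      have h1 : (A : Set V) = {w | H.Adj x w} := by
        ext w
        simp only [A, Finset.coe_filter, Finset.mem_univ, true_and]
      rw [← Set.ncard_coe_finset, h1]
      exact hH x
    have hBA : B.card ≤ A.card := by
      have hch : ∀ w, ∃ h, w ∈ B → H.Adj x h ∧ ReflTransGen U h w := by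
        intro w
        by_cases hw : w ∈ B
        · obtain ⟨⟨u, hu, h, hh1, hh2⟩, hw2⟩ := (Finset.mem_filter.1 hw).2
          have hux : u = x := Option.some.inj (hu.symm.trans hw2)
          exact ⟨h, fun _ => ⟨hux ▸ hh1, hh2⟩⟩
        · exact ⟨w, fun h => absurd h hw⟩
      choose h hh using hch
      refine Finset.card_le_card_of_injOn h ?_ ?_
      · intro w hw
        have := (hh w (Finset.mem_coe.1 hw)).1
        simp only [A, Finset.coe_filter, Finset.mem_univ, true_and, Set.mem_ofPred_eq]
        exact this
      · intro w hw w' hw' hww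
        have hw := Finset.mem_coe.1 hw
        have hw' := Finset.mem_coe.1 hw'
        have h1 := (hh w hw).2
        have h2 := (hh w' hw').2
        rw [← hww] at h2
        have hU : Relator.RightUnique U := by
          intro a b c hab hac
          exact Option.some.inj (hab.symm.trans hac)
        have hwx : par₀ w = some x := (Finset.mem_filter.1 hw).2.2
        have hwx' : par₀ w' = some x := (Finset.mem_filter.1 hw').2.2
        have aux : ∀ v v', par₀ v = some x → par₀ v' = some x → ReflTransGen U v v' → v = v' := by
          intro v v' hv hv' hvv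
          rcases ReflTransGen.cases_head hvv with h3 | ⟨y, h3, h4⟩
          · exact h3
          · have h5 : y = x := Option.some.inj (h3.symm.trans hv)
            rw [h5] at h4
            have h6 := hRle _ _ h4
            have h7 := hUlt _ _ hv'
            omega
        rcases ReflTransGen.total_of_right_unique hU h1 h2 with h3 | h3
        · exact aux w w' hwx hwx' h3
        · exact (aux w' w hwx' hwx h3).symm
    have hC : C.card ≤ 1 := by
      rw [Finset.card_le_one]
      intro a ha b hb
      have h1 := (Finset.mem_filter.1 ha).2.2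
      have h2 := (Finset.mem_filter.1 hb).2.2
      exact Option.some.inj (h1.symm.trans h2)
    calc (Hn x).card ≤ ((A ∪ B) ∪ C).card := Finset.card_le_card hsub
      _ ≤ (A ∪ B).card + C.card := Finset.card_union_le _ _
      _ ≤ (A.card + B.card) + C.card := Nat.add_le_add_right (Finset.card_union_le _ _) _
      _ ≤ 2 * D + 1 := by omega
  · refine wf_of_inner G Hn par ?_ F none hI hr
    intro x w hxw
    rcases hG hxw with h | h
    · rcases Nat.lt_trichotomy (rk w) (rk x) with hlt | heq | hgt
      · have h1 := hp2 x w h hlt
        by_cases hc : Cut x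
        · refine Or.inr (Or.inr ⟨(hHn x w).2 (Or.inr (Or.inr ⟨hc, h1⟩)), fun h2 => ?_⟩)
          have h3 := hTlt w x (TransGen.mono (fun a b hab => (hpar3 a b hab).2) _ _ h2)
          omega
        · left
          rw [hpar2 x hc, h1]
      · exact absurd (hrk heq) (G.ne_of_adj hxw).symm
      · have h1 := hp2 w x h.symm hgt
        by_cases hc : Cut w
        · refine Or.inr (Or.inr ⟨(hHn x w).2 (Or.inr (Or.inl ⟨hc, h1⟩)), fun h2 => ?_⟩)
          rcases TransGen.head'_iff.1 h2 with ⟨y, hy, _⟩
          rw [hpar1 w hc] at hy
          simp at hy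
        · right
          left
          rw [hpar2 w hc, h1]
    · refine Or.inr (Or.inr ⟨(hHn x w).2 (Or.inl h), fun h2 => ?_⟩)
      rcases TransGen.tail'_iff.1 h2 with ⟨y, hy, hyx⟩
      have h3 := hpar3 y x hyx
      exact h3.1 ⟨x, h3.2, w, h, hmono w y hy⟩

end Pool.Agent.Lib.MP_994fee_co.FB
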