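import Pool.Agent.Lib.MP_994fee_co.FB.Defs53

/-!
# The cost is bounded
-/

set_option autoImplicit false

namespace Pool.Agent.Lib.MP_994fee_co.FB

open Finset

variable {V : Type} [DecidableEq V]

/-- The number of vertices `v` with `y ∈ Hn v`. -/
def numH (Hn : V → Finset V) (y : V) : Fr V → ℕ
  | .nil => 0
  | .cons x b t => (if y ∈ Hn x then 1 else 0) + numH Hn y b + numH Hn y t

/-- The number of parents of `y`. -/
def numP (y : V) : Fr V → ℕ
  | .nil => 0
  | .cons _ b t => (if y ∈ b.roots then 1 else 0) + numP y b + numP y t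

theorem Fr.roots_subset (F : Fr V) : F.roots ⊆ F.nodes := by
  induction F with
  | nil => exact subset_rfl
  | cons x b t _ iht =>
    intro y hy
    rw [Fr.roots, mem_insert] at hy
    rw [Fr.nodes, mem_insert, mem_union]
    rcases hy with rfl | hy
    · exact Or.inl rfl
    · exact Or.inr (Or.inr (iht hy))

theorem numP_eq_zero (y : V) (F : Fr V) (h : y ∉ F.nodes) : numP y F = 0 := by
  induction F with
  | nil => rfl
  | cons x b t ihb iht =>
    rw [Fr.nodes, mem_insert, mem_union] at h
    push Not at h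
    rw [numP, ihb h.2.1, iht h.2.2, if_neg fun h1 => h.2.1 (b.roots_subset h1)]

theorem numP_roots (y : V) (F : Fr V) (hF : F.Nod) (h : y ∈ F.roots) : numP y F = 0 := by
  induction F with
  | nil => rfl
  | cons x b t _ iht =>
    obtain ⟨h1, h2, h3, _, h5⟩ := hF
    rw [Fr.roots, mem_insert] at h
    rcases h with rfl | h
    · rw [numP, numP_eq_zero y b h1, numP_eq_zero y t h2, if_neg fun h6 => h1 (b.roots_subset h6)]
    · have h6 : y ∉ b.nodes := fun h7 => disjoint_left.1 h3 h7 (t.roots_subset h)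
      rw [numP, numP_eq_zero y b h6, iht h5 h, if_neg fun h7 => h6 (b.roots_subset h7)]

theorem numP_le_one (y : V) (F : Fr V) (hF : F.Nod) : numP y F ≤ 1 := by
  induction F with
  | nil => exact Nat.zero_le _
  | cons x b t ihb iht =>
    obtain ⟨_, _, h3, h4, h5⟩ := hF
    rw [numP]
    by_cases hb : y ∈ b.nodes
    · rw [numP_eq_zero y t (disjoint_left.1 h3 hb)]
      by_cases hr : y ∈ b.roots
      · rw [numP_roots y b h4 hr, if_pos hr]
      · rw [if_neg hr]
        have := ihb h4
        omega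
    · rw [numP_eq_zero y b hb, if_neg fun h7 => hb (b.roots_subset h7)]
      have := iht h5
      omega

theorem numH_eq (Hn : V → Finset V) (y : V) (F : Fr V) (hF : F.Nod) :
    numH Hn y F = ∑ v ∈ F.nodes, if y ∈ Hn v then 1 else 0 := by
  induction F with
  | nil => rfl
  | cons x b t ihb iht =>
    obtain ⟨h1, h2, h3, h4, h5⟩ := hF
    rw [numH, Fr.nodes, sum_insert (by rw [mem_union]; exact not_or.2 ⟨h1, h2⟩), sum_union h3,
      ihb h4, iht h5, add_assoc]

theorem numH_le (D : ℕ) (Hn : V → Finset V) (hs : ∀ x y, y ∈ Hn x → x ∈ Hn y)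
    (hD : ∀ x, (Hn x).card ≤ D) (y : V) (F : Fr V) (hF : F.Nod) : numH Hn y F ≤ D := by
  rw [numH_eq Hn y F hF, ← card_filter]
  refine le_trans (card_le_card fun v hv => ?_) (hD y)
  exact hs v y (mem_filter.1 hv).2

theorem cost_le_pow (Hn : V → Finset V) (y : V) (F : Fr V) :
    cost Hn y F ≤ numH Hn y F * 3 ^ (numH Hn y F + numP y F) := by
  induction F with
  | nil => exact Nat.zero_le _
  | cons x b t ihb iht =>
    rw [cost, numH, numP]
    set h := (if y ∈ Hn x then 1 else 0 : ℕ) with hh
    set p := (if y ∈ b.roots then 1 else 0 : ℕ) with hp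
    have h1 : (if y ∈ b.roots ∪ Hn x then 3 else 1 : ℕ) ≤ 3 ^ (h + p) := by
      split_ifs with hu
      · rw [mem_union] at hu
        have : 1 ≤ h + p := by
          rcases hu with hu | hu
          · rw [hp, if_pos hu]; omega
          · rw [hh, if_pos hu]; omega
        calc 3 = 3 ^ 1 := rfl
          _ ≤ _ := Nat.pow_le_pow_right (by norm_num) this
      · exact Nat.one_le_pow _ _ (by norm_num)
    set n := numH Hn y b
    set m := numH Hn y t
    set a := numP y b
    set c := numP y t
    have e1 : (if y ∈ b.roots ∪ Hn x then 3 else 1 : ℕ) * cost Hn y b ≤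
        n * 3 ^ (h + n + m + (p + a + c)) := by
      calc _ ≤ 3 ^ (h + p) * (n * 3 ^ (n + a)) := Nat.mul_le_mul h1 ihb
        _ = n * 3 ^ (h + p + (n + a)) := by rw [pow_add 3 (h + p)]; ring
        _ ≤ _ := Nat.mul_le_mul_left _ (Nat.pow_le_pow_right (by norm_num) (by omega))
    have e2 : cost Hn y t ≤ m * 3 ^ (h + n + m + (p + a + c)) :=
      iht.trans (Nat.mul_le_mul_left _ (Nat.pow_le_pow_right (by norm_num) (by omega)))
    have e3 : h ≤ h * 3 ^ (h + n + m + (p + a + c)) :=
      Nat.le_mul_of_pos_right _ (by positivity)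
    calc _ ≤ h * 3 ^ (h + n + m + (p + a + c)) + n * 3 ^ (h + n + m + (p + a + c)) +
        m * 3 ^ (h + n + m + (p + a + c)) := Nat.add_le_add (Nat.add_le_add e3 e1) e2
      _ = _ := by ring

/-- Row K: the cost is bounded. -/
theorem cost_le {V : Type} [DecidableEq V] (D : ℕ) (Hn : V → Finset V)
    (hs : ∀ x y, y ∈ Hn x → x ∈ Hn y) (hD : ∀ x, (Hn x).card ≤ D)
    (F : Fr V) (hF : F.Nod) (y : V) : cost Hn y F ≤ D * 3 ^ (D + 1) := by
  have h1 := numH_le D Hn hs hD y F hF
  have h2 := numP_le_one y F hF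
  exact (cost_le_pow Hn y F).trans
    (Nat.mul_le_mul h1 (Nat.pow_le_pow_right (by norm_num) (by omega)))

end Pool.Agent.Lib.MP_994fee_co.FB
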