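import Pool.Agent.Lib.MP_994fee_co.FB.ADefs53
import Pool.Agent.Lib.MP_994fee_co.FB.Cost53

/-!
# The cost is bounded, with any price
-/

set_option autoImplicit false

namespace Pool.Agent.Lib.MP_994fee_co.FB

open Finset

theorem costN_le_pow53 {V : Type} [DecidableEq V] {N : ℕ} (hN : 1 ≤ N) (Hn : V → Finset V) (y : V)
    (F : Fr V) : costN N Hn y F ≤ numH Hn y F * N ^ (numH Hn y F + numP y F) := by
  induction F with
  | nil => exact Nat.zero_le _
  | cons x b t ihb iht =>
    rw [costN, numH, numP]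
    set h := (if y ∈ Hn x then 1 else 0 : ℕ) with hh
    set p := (if y ∈ b.roots then 1 else 0 : ℕ) with hp
    have h1 : (if y ∈ b.roots ∪ Hn x then N else 1 : ℕ) ≤ N ^ (h + p) := by
      split_ifs with hu
      · rw [mem_union] at hu
        have : 1 ≤ h + p := by
          rcases hu with hu | hu
          · rw [hp, if_pos hu]; omega
          · rw [hh, if_pos hu]; omega
        calc N = N ^ 1 := (pow_one N).symm
          _ ≤ _ := Nat.pow_le_pow_right hN this
      · exact Nat.one_le_pow _ _ hN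
    set n := numH Hn y b
    set m := numH Hn y t
    set a := numP y b
    set c := numP y t
    have e1 : (if y ∈ b.roots ∪ Hn x then N else 1 : ℕ) * costN N Hn y b ≤
        n * N ^ (h + n + m + (p + a + c)) := by
      calc _ ≤ N ^ (h + p) * (n * N ^ (n + a)) := Nat.mul_le_mul h1 ihb
        _ = n * N ^ (h + p + (n + a)) := by rw [pow_add N (h + p)]; ring
        _ ≤ _ := Nat.mul_le_mul_left _ (Nat.pow_le_pow_right hN (by omega))
    have e2 : costN N Hn y t ≤ m * N ^ (h + n + m + (p + a + c)) :=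
      iht.trans (Nat.mul_le_mul_left _ (Nat.pow_le_pow_right hN (by omega)))
    have e3 : h ≤ h * N ^ (h + n + m + (p + a + c)) :=
      Nat.le_mul_of_pos_right _ (Nat.pow_pos (by omega))
    calc _ ≤ h * N ^ (h + n + m + (p + a + c)) + n * N ^ (h + n + m + (p + a + c)) +
        m * N ^ (h + n + m + (p + a + c)) := Nat.add_le_add (Nat.add_le_add e3 e1) e2
      _ = _ := by ring

/-- Row K2: the cost is bounded. -/
theorem costN_le {V : Type} [DecidableEq V] (D N : ℕ) (hN : 1 ≤ N) (Hn : V → Finset V)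
    (hs : ∀ x y, y ∈ Hn x → x ∈ Hn y)
    (hD : ∀ x, (Hn x).card ≤ D) (F : Fr V) (hF : F.Nod) (y : V) :
    costN N Hn y F ≤ D * N ^ (D + 1) := by
  have h1 := numH_le D Hn hs hD y F hF
  have h2 := numP_le_one y F hF
  exact (costN_le_pow53 hN Hn y F).trans
    (Nat.mul_le_mul h1 (Nat.pow_le_pow_right hN (by omega)))

end Pool.Agent.Lib.MP_994fee_co.FB
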