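import Mathlib

/-!
# Hat guessing in a box: few players with few guesses miss a point of a small box
-/

set_option autoImplicit false

namespace Pool.Agent.Lib.MP_994fee_co.FB

open Finset

/-- The points of the box at which the player `i` guesses right. -/
theorem thin_one {n s L : ℕ} {K : Type} [DecidableEq K] (B : Fin n → Finset K)
    (hB : ∀ i, (B i).card = L) (i : Fin n) (g : (Fin n → K) → Finset K)
    (hg : ∀ a, (g a).card ≤ s)
    (hl : ∀ a a' : Fin n → K, (∀ j, j ≠ i → a j = a' j) → g a = g a') :
    L * ((Fintype.piFinset B).filter fun a => a i ∈ g a).card ≤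
      s * (Fintype.piFinset B).card := by
  classical
  have h1 : ∑ p ∈ (Fintype.piFinset B) ×ˢ B i, (if p.1 i ∈ g p.1 then 1 else 0) =
      ∑ p ∈ (Fintype.piFinset B) ×ˢ B i, (if p.2 ∈ g p.1 then 1 else 0) := by
    refine sum_nbij' (fun p => (Function.update p.1 i p.2, p.1 i))
      (fun p => (Function.update p.1 i p.2, p.1 i)) ?_ ?_ ?_ ?_ ?_
    · rintro ⟨a, x⟩ hp
      rw [mem_product, Fintype.mem_piFinset] at hp ⊢
      refine ⟨fun j => ?_, hp.1 i⟩
      by_cases hj : j = i
      · subst hj
        simpa using hp.2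
      · simpa [Function.update_of_ne hj] using hp.1 j
    · rintro ⟨a, x⟩ hp
      rw [mem_product, Fintype.mem_piFinset] at hp ⊢
      refine ⟨fun j => ?_, hp.1 i⟩
      by_cases hj : j = i
      · subst hj
        simpa using hp.2
      · simpa [Function.update_of_ne hj] using hp.1 j
    · rintro ⟨a, x⟩ _
      simp
    · rintro ⟨a, x⟩ _
      simp
    · rintro ⟨a, x⟩ _
      have h2 : g (Function.update a i x) = g a :=
        hl _ _ fun j hj => Function.update_of_ne hj _ _
      simp only [h2]
  rw [sum_product, sum_product] at h1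
  have h3 : ∑ a ∈ Fintype.piFinset B, ∑ _x ∈ B i, (if a i ∈ g a then 1 else 0) =
      L * ((Fintype.piFinset B).filter fun a => a i ∈ g a).card := by
    rw [card_filter, mul_sum]
    refine sum_congr rfl fun a _ => ?_
    rw [sum_const, hB, smul_eq_mul]
  have h4 : ∑ a ∈ Fintype.piFinset B, ∑ x ∈ B i, (if x ∈ g a then 1 else 0) ≤
      s * (Fintype.piFinset B).card := by
    rw [mul_comm, ← smul_eq_mul, ← sum_const]
    refine sum_le_sum fun a _ => ?_
    rw [← card_filter]
    refine (card_le_card ?_).trans (hg a)
    intro x hx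
    exact (mem_filter.1 hx).2
  calc L * ((Fintype.piFinset B).filter fun a => a i ∈ g a).card = _ := h3.symm
    _ = _ := h1
    _ ≤ _ := h4

/-- In a box with sides `n * s + 1` some point is avoided by `n` players with `s` guesses each. -/
theorem thin_box (n s : ℕ) (K : Type) [DecidableEq K] (B : Fin n → Finset K)
    (hB : ∀ i, (B i).card = n * s + 1)
    (g : Fin n → (Fin n → K) → Finset K) (hg : ∀ i a, (g i a).card ≤ s)
    (hl : ∀ i (a a' : Fin n → K), (∀ j, j ≠ i → a j = a' j) → g i a = g i a') :
    ∃ a ∈ Fintype.piFinset B, ∀ i, a i ∉ g i a := by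
  classical
  by_contra hcon
  push Not at hcon
  have hpos : 0 < (Fintype.piFinset B).card := by
    rw [Fintype.card_piFinset]
    exact prod_pos fun i _ => by rw [hB]; omega
  have h1 : (Fintype.piFinset B).card ≤
      ∑ i, ((Fintype.piFinset B).filter fun a => a i ∈ g i a).card := by
    refine le_trans (card_le_card ?_) card_biUnion_le
    intro a ha
    obtain ⟨i, hi⟩ := hcon a ha
    rw [mem_biUnion]
    exact ⟨i, mem_univ _, mem_filter.2 ⟨ha, hi⟩⟩
  have h2 : (n * s + 1) * (Fintype.piFinset B).card ≤ n * (s * (Fintype.piFinset B).card) := by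
    calc (n * s + 1) * (Fintype.piFinset B).card
        ≤ (n * s + 1) * ∑ i, ((Fintype.piFinset B).filter fun a => a i ∈ g i a).card :=
          Nat.mul_le_mul_left _ h1
      _ = ∑ i, (n * s + 1) * ((Fintype.piFinset B).filter fun a => a i ∈ g i a).card := by
          rw [mul_sum]
      _ ≤ ∑ _i : Fin n, s * (Fintype.piFinset B).card :=
          sum_le_sum fun i _ => thin_one B hB i (g i) (hg i) (hl i)
      _ = n * (s * (Fintype.piFinset B).card) := by
          rw [sum_const, card_univ, Fintype.card_fin, smul_eq_mul]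
  nlinarith

end Pool.Agent.Lib.MP_994fee_co.FB
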