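import Pool.Agent.Lib.MP_994fee_co.TreeLike
import Pool.Agent.Lib.MP_994fee_co.FB.Abs53
import Pool.Agent.Lib.MP_994fee_co.FB.Box53
import Pool.Agent.Lib.MP_994fee_co.FB.Thin53
import Pool.Agent.Lib.MP_994fee_co.FB.Cost53b
import Pool.Agent.Lib.MP_994fee_co.FB.Build76
import Pool.Agent.Lib.MP_994fee_co.FB.Acyc41

/-!
# Blocks whose quotient graph is a forest plus a graph of bounded degree: the players lose
-/

set_option autoImplicit false

namespace Pool.Agent.Lib.MP_994fee_co.FB

open Finset

/-- The vertices of `S` are divided into blocks of at most `n` vertices, and the graph of the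
blocks is contained in the union of a forest and a graph of maximum degree at most `n`. -/
def BlockForestOn {V : Type} (n : ℕ) (G : SimpleGraph V) (S : Finset V) : Prop :=
  ∃ (β : V → ℕ) (T H : SimpleGraph ℕ), T.IsAcyclic ∧
    (∀ i, (S.filter (fun v => β v = i)).card ≤ n) ∧
    (∀ i, {j | j ∈ S.image β ∧ H.Adj i j}.ncard ≤ n) ∧
    ∀ v ∈ S, ∀ w ∈ S, G.Adj v w → β v = β w ∨ T.Adj (β v) (β w) ∨ H.Adj (β v) (β w)

/-- The same with numbered blocks: in the first graph every block has at most one neighbour of
smaller number. -/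
def BlockRankOn {V : Type} (n : ℕ) (G : SimpleGraph V) (S : Finset V) : Prop :=
  ∃ (β : V → ℕ) (T H : SimpleGraph ℕ),
    (∀ i, {j | j ∈ S.image β ∧ T.Adj i j ∧ j < i}.ncard ≤ 1) ∧
    (∀ i, (S.filter (fun v => β v = i)).card ≤ n) ∧
    (∀ i, {j | j ∈ S.image β ∧ H.Adj i j}.ncard ≤ n) ∧
    ∀ v ∈ S, ∀ w ∈ S, G.Adj v w → β v = β w ∨ T.Adj (β v) (β w) ∨ H.Adj (β v) (β w)

theorem blocks_lose (n s : ℕ) : ∃ q : ℕ, 0 < q ∧ ∀ {V : Type} (G : SimpleGraph V)
    (S : Finset V) (β : V → ℕ) (T H : SimpleGraph ℕ),
    (∃ rk : ↥(S.image β) → ℕ, Function.Injective rk ∧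
      ∀ v, {w | (T.comap (fun i : ↥(S.image β) => (i : ℕ))).Adj v w ∧
        rk w < rk v}.ncard ≤ 1) →
    (∀ i, (S.filter (fun v => β v = i)).card ≤ n) →
    (∀ i, {j | j ∈ S.image β ∧ H.Adj i j}.ncard ≤ n) →
    (∀ v ∈ S, ∀ w ∈ S, G.Adj v w → β v = β w ∨ T.Adj (β v) (β w) ∨ H.Adj (β v) (β w)) →
    TL.LosesOn G S s q := by
  classical
  obtain ⟨N₀, gam, hHyp⟩ := hyp_box n s (2 * n + 1)
  set w := (n * s + 1) ^ n with hw
  have hw1 : 1 ≤ w := by
    rw [hw]
    exact Nat.one_le_pow _ _ (Nat.succ_pos _)
  let B : ℕ := (2 * n + 1) * (w * N₀ + 1) ^ (2 * n + 1 + 1)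
  let q : ℕ := gam ((w * N₀ + 1) * B) + 1
  refine ⟨q, Nat.succ_pos _, ?_⟩
  intro V G S β T H hT hn hH hadj g hg hgs
  -- the blocks
  let I : Type := (S.image β : Finset ℕ)
  let T' : SimpleGraph I := T.comap (fun i : I => (i : ℕ))
  let H' : SimpleGraph I := H.comap (fun i : I => (i : ℕ))
  obtain ⟨F, Hn, h1, h2, h3, h4, h5⟩ := exists_fr n (T' ⊔ H') T' H' le_rfl hT
    (by
      intro i
      refine le_trans ?_ (hH i)
      refine Set.ncard_le_ncard_of_injOn (fun w : I => (w : ℕ)) ?_ Subtype.val_injective.injOn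
        (((S.image β).finite_toSet).subset fun w hw => hw.1)
      intro w hw
      exact ⟨w.2, hw⟩)
  -- the numbers of the members of a block
  have hidx : ∀ i : I, ∃ f : V → Fin n → Prop, (∀ v ∈ S, β v = i → ∃ k, f v k) ∧
      (∀ v k k', f v k → f v k' → k = k') ∧
      ∀ v ∈ S, ∀ v' ∈ S, β v = i → β v' = i → ∀ k, f v k → f v' k → v = v' := by
    intro i
    let M := S.filter (fun v => β v = i)
    have hM : M.card ≤ n := hn i
    let e := M.equivFin
    refine ⟨fun v k => ∃ h : v ∈ M, ((e ⟨v, h⟩ : Fin M.card) : ℕ) = k, ?_, ?_, ?_⟩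
    · intro v hv hvi
      have h : v ∈ M := mem_filter.2 ⟨hv, hvi⟩
      exact ⟨⟨(e ⟨v, h⟩ : Fin M.card), lt_of_lt_of_le (e ⟨v, h⟩).2 hM⟩, h, rfl⟩
    · rintro v k k' ⟨h, e1⟩ ⟨h', e2⟩
      exact Fin.ext (e1.symm.trans e2)
    · rintro v hv v' hv' _ _ k ⟨h, e1⟩ ⟨h', e2⟩
      have e3 : e ⟨v, h⟩ = e ⟨v', h'⟩ := Fin.ext (e1.trans e2.symm)
      have e4 := e.injective e3
      exact congrArg Subtype.val e4
  choose f hf1 hf2 hf3 using hidx
  -- the number of a vertex in its block
  let bl : ∀ v ∈ S, I := fun v hv => ⟨β v, mem_image_of_mem β hv⟩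
  let nu : ∀ v ∈ S, Fin n := fun v hv => (hf1 (bl v hv) v hv rfl).choose
  have hnu : ∀ v (hv : v ∈ S), f (bl v hv) v (nu v hv) := fun v hv =>
    (hf1 (bl v hv) v hv rfl).choose_spec
  have hnuinj : ∀ v (hv : v ∈ S) v' (hv' : v' ∈ S), β v = β v' → nu v hv = nu v' hv' →
      v = v' := by
    intro v hv v' hv' hb hk
    have e1 := hnu v hv
    have e2 := hnu v' hv'
    have e3 : bl v' hv' = bl v hv := Subtype.ext hb.symm
    rw [e3, ← hk] at e2
    exact hf3 (bl v hv) v hv v' hv' rfl hb.symm _ e1 e2
  -- the colouring given by the colours of the blocks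
  let ext : (I → Fin n → Fin q) → V → ℕ := fun c v =>
    if h : v ∈ S then (c (bl v h) (nu v h) : ℕ) else 0
  have hext : ∀ c v (h : v ∈ S), ext c v = (c (bl v h) (nu v h) : ℕ) := by
    intro c v h
    simp only [ext, h, dif_pos]
  let ok : I → (I → Fin n → Fin q) → Prop := fun i c =>
    ∀ v ∈ S, β v = i → ext c v ∉ g v (ext c)
  have hcore := acore (V := I) (C := Fin n → Fin q) (w := w) (N₀ := N₀)
    (Pal := Pal53 n (Fin q) gam) (G := T' ⊔ H') (Hn := Hn) (ok := ok) (D := 2 * n + 1)
    (Test := Test53 n (n * s + 1) (Fin q)) (hHyp I (Fin q)) hw1 h4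
    (by
      intro i c c' hi hnb hok v hv hvi
      have hbv : bl v hv = i := Subtype.ext hvi
      have e1 : ext c v = ext c' v := by
        rw [hext c v hv, hext c' v hv, hbv, hi]
      have e2 : g v (ext c) = g v (ext c') := by
        refine hg v hv _ _ fun u hu huv => ?_
        rw [hext c u hu, hext c' u hu]
        rcases hadj v hv u hu huv with h | h | h
        · have : bl u hu = i := Subtype.ext (h.symm.trans hvi)
          rw [this, hi]
        · have : (T' ⊔ H').Adj i (bl u hu) := by
            left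
            change T.Adj (i : ℕ) (β u)
            rw [← hvi]
            exact h
          rw [hnb _ this]
        · have : (T' ⊔ H').Adj i (bl u hu) := by
            right
            change H.Adj (i : ℕ) (β u)
            rw [← hvi]
            exact h
          rw [hnb _ this]
      rw [← e1, ← e2]
      exact hok v hv hvi)
    (by
      rintro i c E ⟨Bx, hBx, rfl⟩
      -- the players of the block `i`
      let pl : Fin n → V → Prop := fun k v => v ∈ S ∧ β v = i ∧ f i v k
      let gg : Fin n → (Fin n → Fin q) → Finset (Fin q) := fun k a =>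
        if h : ∃ v, pl k v then univ.filter fun x : Fin q =>
          (x : ℕ) ∈ g h.choose (ext (Function.update c i a)) else ∅
      have hgg : ∀ k v, pl k v → ∀ a, gg k a = univ.filter fun x : Fin q =>
          (x : ℕ) ∈ g v (ext (Function.update c i a)) := by
        intro k v hv a
        have h : ∃ v, pl k v := ⟨v, hv⟩
        have e : h.choose = v := by
          have h' := h.choose_spec
          exact hf3 i _ h'.1 v hv.1 h'.2.1 hv.2.1 k h'.2.2 hv.2.2
        simp only [gg, dif_pos h, e]
      obtain ⟨a, ha, hav⟩ := thin_box n s (Fin q) Bx hBx gg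
        (by
          intro k a
          by_cases h : ∃ v, pl k v
          · obtain ⟨v, hv⟩ := h
            rw [hgg k v hv]
            refine le_trans ?_ (hgs v hv.1 (ext (Function.update c i a)))
            refine card_le_card_of_injOn (fun x : Fin q => (x : ℕ)) ?_ ?_
            · intro x hx
              exact (mem_filter.1 hx).2
            · intro x _ x' _ hxx
              exact Fin.ext hxx
          · simp only [gg, dif_neg h, card_empty]
            exact Nat.zero_le _)
        (by
          intro k a a' haa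
          by_cases h : ∃ v, pl k v
          · obtain ⟨v, hv⟩ := h
            rw [hgg k v hv, hgg k v hv]
            have : g v (ext (Function.update c i a)) = g v (ext (Function.update c i a')) := by
              refine hg v hv.1 _ _ fun u hu huv => ?_
              rw [hext _ u hu, hext _ u hu]
              by_cases hbu : bl u hu = i
              · rw [hbu, Function.update_self, Function.update_self]
                congr 1
                refine haa _ fun hk => ?_
                have hbv : bl v hv.1 = i := Subtype.ext hv.2.1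
                have e1 := hnu u hu
                rw [hbu, hk] at e1
                have e2 : u = v := hf3 i u hu v hv.1 (congrArg Subtype.val hbu) hv.2.1 k e1 hv.2.2
                exact G.loopless.irrefl v (e2 ▸ huv)
              · rw [Function.update_of_ne hbu, Function.update_of_ne hbu]
            rw [this]
          · simp only [gg, dif_neg h])
      refine ⟨a, ha, ?_⟩
      intro v hv hvi
      have hbv : bl v hv = i := Subtype.ext hvi
      have hpl : pl (nu v hv) v := by
        refine ⟨hv, hvi, ?_⟩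
        have := hnu v hv
        rw [hbv] at this
        exact this
      have h6 := hav (nu v hv)
      rw [hgg _ v hpl, mem_filter, not_and] at h6
      have h7 := h6 (mem_univ _)
      rw [hext _ v hv, hbv, Function.update_self]
      exact h7)
    F h1 h2 h5 B
    (by
      intro y
      have h6 := costN_le (2 * n + 1) (w * N₀ + 1) (Nat.succ_pos _) Hn h3 h4 F h1 y
      refine le_trans ?_ h6
      -- the cost is monotone in the price
      have h7 : ∀ F' : Fr I, costN (w * N₀) Hn y F' ≤ costN (w * N₀ + 1) Hn y F' := by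
        intro F'
        induction F' with
        | nil => exact le_rfl
        | cons x b t ihb iht =>
          rw [costN, costN]
          refine Nat.add_le_add (Nat.add_le_add le_rfl (Nat.mul_le_mul ?_ ihb)) iht
          split_ifs
          · exact Nat.le_succ _
          · exact le_rfl
      exact h7 F)
    (Fintype.piFinset fun _ => univ)
    ⟨fun _ => univ, fun _ => by rw [card_univ, Fintype.card_fin]; exact Nat.le_succ _, rfl⟩
  obtain ⟨c, hc⟩ := hcore
  refine ⟨ext c, ?_, ?_⟩
  · intro v
    by_cases hv : v ∈ S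
    · rw [hext c v hv]
      exact (c _ _).2
    · simp only [ext, hv, dif_neg, not_false_eq_true]
      exact Nat.succ_pos _
  · intro v hv
    exact hc (bl v hv) v hv rfl

theorem blockForestOn_loses (n s : ℕ) : ∃ q : ℕ, 0 < q ∧ ∀ {V : Type} (G : SimpleGraph V)
    (S : Finset V), BlockForestOn n G S → TL.LosesOn G S s q := by
  classical
  obtain ⟨q, hq, h⟩ := blocks_lose n s
  refine ⟨q, hq, ?_⟩
  rintro V G S ⟨β, T, H, hT, hn, hH, hadj⟩
  exact h G S β T H (exists_rank _ (hT.of_comap ⟨fun i : ↥(S.image β) => (i : ℕ),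
    Subtype.val_injective⟩)) hn hH hadj

theorem blockRankOn_loses (n s : ℕ) : ∃ q : ℕ, 0 < q ∧ ∀ {V : Type} (G : SimpleGraph V)
    (S : Finset V), BlockRankOn n G S → TL.LosesOn G S s q := by
  classical
  obtain ⟨q, hq, h⟩ := blocks_lose n s
  refine ⟨q, hq, ?_⟩
  rintro V G S ⟨β, T, H, hT, hn, hH, hadj⟩
  refine h G S β T H ⟨fun i => (i : ℕ), Subtype.val_injective, fun v => ?_⟩ hn hH hadj
  refine le_trans ?_ (hT v)
  refine Set.ncard_le_ncard_of_injOn (fun w : ↥(S.image β) => (w : ℕ)) ?_
    Subtype.val_injective.injOn (((S.image β).finite_toSet).subset fun w hw => hw.1)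
  intro w hw
  exact ⟨w.2, hw.1, hw.2⟩

end Pool.Agent.Lib.MP_994fee_co.FB
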