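import Pool.Agent.Lib.MP_994fee_co.FB.Cost53
import Pool.Agent.Lib.MP_994fee_co.FB.Ramsey41

/-!
# Forest plus bounded degree, with `s` guesses: the main induction
-/

set_option autoImplicit false

namespace Pool.Agent.Lib.MP_994fee_co.FB

open Finset

/-- The number of runs which are needed for a common colour in `n` worlds. -/
def runs (s : ℕ) : ℕ → ℕ
  | 0 => 0
  | n + 1 => (n * s + 1) + runs s n

theorem collect {K P : Type} [DecidableEq K] (s : ℕ) (le : P → P → Prop)
    (hrefl : ∀ p, le p p) (htrans : ∀ a b c, le a b → le b c → le a c) (Ok : ℕ → P → Prop)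
    (Ach : K → P → Prop) (Mz : Finset K)
    (hmono : ∀ a p p' n, Ok n p' → le p' p → Ach a p → Ach a p')
    (hrun : ∀ n p (C : Finset K), Ok (n + 1) p → C ⊆ Mz → C.card = s + 1 →
      ∃ a ∈ C, ∃ p', le p' p ∧ Ok n p' ∧ Ach a p') (A : Finset K) (hA : A ⊆ Mz) :
    ∀ m n p, m + s ≤ A.card → Ok (n + m) p →
      ∃ B ⊆ A, B.card = m ∧ ∃ p', le p' p ∧ Ok n p' ∧ ∀ a ∈ B, Ach a p' := by
  intro m
  induction m with
  | zero =>
    intro n p _ hp
    exact ⟨∅, empty_subset _, card_empty, p, hrefl p, hp, fun a ha => absurd ha (notMem_empty a)⟩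
  | succ m ih =>
    intro n p hm hp
    obtain ⟨B, hB, hBc, p1, h1, h2, h3⟩ := ih (n + 1) p (by omega)
      (by rw [show n + 1 + m = n + (m + 1) by omega]; exact hp)
    have h4 : s + 1 ≤ (A \ B).card := by
      rw [card_sdiff_of_subset hB, hBc]
      omega
    obtain ⟨C, hC, hCc⟩ := exists_subset_card_eq h4
    obtain ⟨a, ha, p', h5, h6, h7⟩ := hrun n p1 C h2
      ((hC.trans sdiff_subset).trans hA) hCc
    have ha' := mem_sdiff.1 (hC ha)
    refine ⟨insert a B, insert_subset ha'.1 hB, ?_, p', htrans _ _ _ h5 h1, h6, ?_⟩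
    · rw [card_insert_of_notMem ha'.2, hBc]
    · intro a' ha''
      rcases mem_insert.1 ha'' with rfl | h
      · exact h7
      · exact hmono a' p1 p' n h6 h5 (h3 a' h)

theorem common {ι K P : Type} [DecidableEq K] (s : ℕ) (le : P → P → Prop)
    (hrefl : ∀ p, le p p) (htrans : ∀ a b c, le a b → le b c → le a c) (Ok : ℕ → P → Prop)
    (Ach : ι → K → P → Prop) (Mz : Finset K)
    (hmono : ∀ i a p p' n, Ok n p' → le p' p → Ach i a p → Ach i a p')
    (hrun : ∀ i n p (C : Finset K), Ok (n + 1) p → C ⊆ Mz → C.card = s + 1 →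
      ∃ a ∈ C, ∃ p', le p' p ∧ Ok n p' ∧ Ach i a p') (l : List ι) :
    ∀ (A : Finset K) n p, A ⊆ Mz → l.length * s + 1 ≤ A.card → Ok (n + runs s l.length) p →
      ∃ a ∈ A, ∃ p', le p' p ∧ Ok n p' ∧ ∀ i ∈ l, Ach i a p' := by
  induction l with
  | nil =>
    intro A n p _ hA hp
    have : 0 < A.card := by
      simp only [List.length_nil, zero_mul, zero_add] at hA
      omega
    obtain ⟨a, ha⟩ := card_pos.1 this
    exact ⟨a, ha, p, hrefl p, hp, fun i hi => absurd hi (List.not_mem_nil)⟩
  | cons i l ih =>
    intro A n p hAM hA hp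
    rw [List.length_cons] at hA hp
    rw [runs] at hp
    obtain ⟨B, hB, hBc, p1, h1, h2, h3⟩ := collect s le hrefl htrans Ok (Ach i) Mz (hmono i)
      (hrun i) A hAM (l.length * s + 1) (n + runs s l.length) p
      (by
        have : (l.length + 1) * s = l.length * s + s := by ring
        omega)
      (by
        rw [show n + runs s l.length + (l.length * s + 1) =
          n + (l.length * s + 1 + runs s l.length) by omega]
        exact hp)
    obtain ⟨a, ha, p', h4, h5, h6⟩ := ih B n p1 (hB.trans hAM) (by rw [hBc]) h2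
    refine ⟨a, hB ha, p', htrans _ _ _ h4 h1, h5, ?_⟩
    intro j hj
    rcases List.mem_cons.1 hj with rfl | h
    · exact hmono j a p1 p' n h5 h4 (h3 a ha)
    · exact h6 j h

variable {V K : Type} [DecidableEq V] [DecidableEq K]

/-- The cost of a forest for the vertex `y`, with `N` runs. -/
def costN (N : ℕ) (Hn : V → Finset V) (y : V) : Fr V → ℕ
  | .nil => 0
  | .cons x b t => ((if y ∈ Hn x then 1 else 0) +
      (if y ∈ b.roots ∪ Hn x then N else 1) * costN N Hn y b) + costN N Hn y t

/-- The cost of one tree. -/
def treeN (N : ℕ) (Hn : V → Finset V) (y x : V) (b : Fr V) : ℕ :=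
  (if y ∈ Hn x then 1 else 0) + (if y ∈ b.roots ∪ Hn x then N else 1) * costN N Hn y b

theorem costN_cons (N : ℕ) (Hn : V → Finset V) (y x : V) (b t : Fr V) :
    costN N Hn y (.cons x b t) = treeN N Hn y x b + costN N Hn y t := rfl

/-- All players of `S` are wrong for all colourings from the palettes `M`. -/
def Good (g : V → (V → K) → Finset K) (S : Finset V) (M : V → Finset K) : Prop :=
  ∀ v ∈ S, ∀ c : V → K, (∀ y, c y ∈ M y) → c v ∉ g v c

theorem Good.mono {g : V → (V → K) → Finset K} {S S' : Finset V} {M M' : V → Finset K}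
    (h : Good g S M) (hS : S' ⊆ S) (hM : ∀ y, M' y ⊆ M y) : Good g S' M' :=
  fun v hv c hc => h v (hS hv) c fun y => hM y (hc y)

/-- All palettes are nonempty. -/
def Ne (M : V → Finset K) : Prop := ∀ y, (M y).Nonempty

/-- The sizes of the palettes outside `A`. -/
def Sz (D s : ℕ) (k : V → ℕ) (A : Finset V) (M : V → Finset K) : Prop :=
  ∀ y, y ∉ A → gR ((s + 1) * s + 1) D (s + 1) (k y) ≤ (M y).card

/-- The vertices of `A` have a colour. -/
def Sg (A : Finset V) (M : V → Finset K) : Prop := ∀ w ∈ A, ∃ a, M w = {a}

theorem sg_of_le {A : Finset V} {M M' : V → Finset K} (h : Sg A M) (hM : ∀ y, M' y ⊆ M y)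
    (hne : Ne M') : ∀ w ∈ A, M' w = M w := by
  intro w hw
  obtain ⟨a, ha⟩ := h w hw
  rw [ha]
  have h1 := hM w
  rw [ha] at h1
  rcases subset_singleton_iff.1 h1 with h2 | h2
  · exact absurd (hne w) (by rw [h2]; exact not_nonempty_empty)
  · exact h2

/-- The statement for one tree. -/
def TreeOK (D s : ℕ) (G : SimpleGraph V) (Hn : V → Finset V) (g : V → (V → K) → Finset K) (x : V)
    (b : Fr V) : Prop :=
  ∀ (u : Option V) (A S : Finset V) (k : V → ℕ) (M : V → Finset K) (C : Finset K),
    (∀ w, G.Adj x w → u = some w ∨ w ∈ b.roots ∨ (w ∈ Hn x ∧ w ∉ b.nodes)) →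
    x ∉ A → Disjoint A b.nodes → (∀ w, u = some w → w ∈ A) → Sg A M → Ne M → Good g S M →
    Sz D s (fun y => k y + treeN (runs s (s + 1)) Hn y x b) (insert x A) M →
    C ⊆ M x → C.card = s + 1 →
    ∃ a ∈ C, ∃ M' : V → Finset K, (∀ y, M' y ⊆ M y) ∧ M' x = {a} ∧ Sg b.nodes M' ∧ Ne M' ∧
      Good g (insert x b.nodes ∪ S) M' ∧ Sz D s k (insert x b.nodes ∪ A) M'

/-- The statement for the forest below a vertex `x`, in `s + 1` worlds. -/
def FamOK (D s : ℕ) (G : SimpleGraph V) (Hn : V → Finset V) (g : V → (V → K) → Finset K)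
    (F : Fr V) : Prop :=
  ∀ (x : V) (Wt A S : Finset V) (k : V → ℕ) (M : Fin (s + 1) → V → Finset K),
    Wf G Hn (some x) F → x ∈ A → Disjoint A F.nodes → F.roots ⊆ Wt →
    (∀ y ∈ Wt, y ∈ F.nodes → y ∈ F.roots) → (∀ i, Sg A (M i)) → (∀ i, Ne (M i)) →
    (∀ i, Good g S (M i)) → (∀ y ∈ Wt, ∀ i j, M i y = M j y) →
    (∀ i, Sz D s (fun y => k y + (if y ∈ Wt then runs s (s + 1) else 1) *
      costN (runs s (s + 1)) Hn y F) A (M i)) →
    ∃ M' : Fin (s + 1) → V → Finset K, (∀ i y, M' i y ⊆ M i y) ∧ (∀ i, Sg F.nodes (M' i)) ∧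
      (∀ i, Ne (M' i)) ∧ (∀ i, Good g (F.nodes ∪ S) (M' i)) ∧
      (∀ y ∈ Wt, ∀ i j, M' i y = M' j y) ∧ ∀ i, Sz D s k (F.nodes ∪ A) (M' i)

theorem tree_of_fam {D s : ℕ} {G : SimpleGraph V} {Hn : V → Finset V}
    {g : V → (V → K) → Finset K}
    (hg : ∀ v, ∀ c c' : V → K, (∀ w, G.Adj v w → c w = c' w) → g v c = g v c')
    (hs : ∀ v c, (g v c).card ≤ s) (hD : ∀ v, (Hn v).card ≤ D) {x : V} {b : Fr V}
    (hxb : x ∉ b.nodes) (hwf : Wf G Hn (some x) b) (hb : FamOK D s G Hn g b) :
    TreeOK D s G Hn g x b := by
  classical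
  intro u A S k M C hN hxA hdis hu hSg hNe hGood hSz hC hCc
  set N := runs s (s + 1) with hNdef
  have hN1 : 1 ≤ N := by rw [hNdef, runs]; omega
  -- the candidates
  let e : Fin (s + 1) ≃ C := (Fintype.equivFinOfCardEq (by rw [Fintype.card_coe, hCc])).symm
  let M0 : Fin (s + 1) → V → Finset K := fun i => Function.update M x {(e i : K)}
  have hM0 : ∀ i y, M0 i y ⊆ M y := by
    intro i y
    by_cases h : y = x
    · subst h
      simp only [M0, Function.update_self]
      exact singleton_subset_iff.2 (hC (e i).2)
    · simp only [M0, Function.update_of_ne h]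
      exact subset_rfl
  have hM0x : ∀ i, M0 i x = {(e i : K)} := fun i => by simp only [M0, Function.update_self]
  have hM0y : ∀ i y, y ≠ x → M0 i y = M y := fun i y h => by
    simp only [M0, Function.update_of_ne h]
  let Wt : Finset V := b.roots ∪ (Hn x \ insert x b.nodes)
  let k' : V → ℕ := fun y => k y + if y ∈ Hn x then 1 else 0
  obtain ⟨M1, h1, h2, h3, h4, h5, h6⟩ := hb x Wt (insert x A) S k' M0 hwf (mem_insert_self x A)
    (by
      rw [disjoint_insert_left]
      exact ⟨hxb, hdis⟩)
    (subset_union_left)
    (by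
      intro y hy hyb
      rcases mem_union.1 hy with h | h
      · exact h
      · exact absurd (mem_insert_of_mem hyb) (mem_sdiff.1 h).2)
    (by
      intro i w hw
      rcases mem_insert.1 hw with rfl | h
      · exact ⟨_, hM0x i⟩
      · rw [hM0y i w (fun h' => hxA (h' ▸ h))]
        exact hSg w h)
    (by
      intro i y
      by_cases h : y = x
      · subst h
        rw [hM0x]
        exact singleton_nonempty _
      · rw [hM0y i y h]
        exact hNe y)
    (fun i => hGood.mono subset_rfl (hM0 i))
    (by
      intro y hy i j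
      have hyx : y ≠ x := by
        rintro rfl
        rcases mem_union.1 hy with h | h
        · exact hxb (b.roots_subset h)
        · exact (mem_sdiff.1 h).2 (mem_insert_self _ _)
      rw [hM0y i y hyx, hM0y j y hyx])
    (by
      intro i y hy
      have hyx : y ≠ x := fun h => hy (h ▸ mem_insert_self _ _)
      rw [hM0y i y hyx]
      refine le_trans (gR_mono _ _ _ ?_) (hSz y hy)
      simp only [k', treeN]
      have h7 : (if y ∈ Wt then N else 1) ≤ if y ∈ b.roots ∪ Hn x then N else 1 := by
        by_cases hyW : y ∈ Wt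
        · have : y ∈ b.roots ∪ Hn x := by
            rcases mem_union.1 hyW with h | h
            · exact mem_union_left _ h
            · exact mem_union_right _ (mem_sdiff.1 h).1
          rw [if_pos hyW, if_pos this]
        · rw [if_neg hyW]
          split_ifs
          · exact hN1
          · exact le_rfl
      have h8 := Nat.mul_le_mul_right (costN N Hn y b) h7
      simp only [← hNdef]
      omega)
  -- the unassigned neighbours of `x` in `H`
  let Y : Finset V := Hn x \ (insert x b.nodes ∪ A)
  have hYW : ∀ y ∈ Y, y ∈ Wt := by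
    intro y hy
    have h := mem_sdiff.1 hy
    refine mem_union_right _ (mem_sdiff.2 ⟨h.1, fun h' => h.2 (mem_union_left _ h')⟩)
  have hbase : ∃ c0 : V → K, ∀ w, c0 w ∈ M1 0 w := ⟨fun w => (h3 0 w).choose,
    fun w => (h3 0 w).choose_spec⟩
  obtain ⟨c0, hc0⟩ := hbase
  let tl : (V → K) → (V → K) := fun c w => if w ∈ Y then c w else c0 w
  have hmiss : ∀ c : V → K, ∃ i : Fin (s + 1), ((e i : C) : K) ∉ g x (tl c) := by
    intro c
    by_contra hcon
    push Not at hcon
    have h7 : C ⊆ g x (tl c) := by
      intro a ha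
      have := hcon (e.symm ⟨a, ha⟩)
      rwa [Equiv.apply_symm_apply] at this
    have h8 := (card_le_card h7).trans (hs x _)
    omega
  let Fi : (V → K) → Fin (s + 1) := fun c => (hmiss c).choose
  have hFi : ∀ c, ((e (Fi c) : C) : K) ∉ g x (tl c) := fun c => (hmiss c).choose_spec
  have hFidep : ∀ c c' : V → K, (∀ y ∈ Y, c y = c' y) → Fi c = Fi c' := by
    intro c c' h
    have : tl c = tl c' := by
      funext w
      simp only [tl]
      split_ifs with hw
      · exact h w hw
      · rfl
    simp only [Fi, this]
  obtain ⟨M2, g1, g2, g3, i0, g4⟩ := close_const ((s + 1) * s + 1) D (s + 1) (κ := Fin (s + 1))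
    (by rw [Fintype.card_fin]) Y ((card_le_card sdiff_subset).trans (hD x)) k (M1 0)
    (by
      intro y hy
      have h := mem_sdiff.1 hy
      have h7 := h6 0 y (by
        intro h'
        apply h.2
        rcases mem_union.1 h' with h'' | h''
        · exact mem_union_left _ (mem_insert_of_mem h'')
        · rcases mem_insert.1 h'' with rfl | h''
          · exact mem_union_left _ (mem_insert_self _ _)
          · exact mem_union_right _ h'')
      simp only [k', if_pos h.1] at h7
      exact h7)
    Fi hFidep
  let M3 : V → Finset K := fun y => if y ∈ Y then M2 y else M1 i0 y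
  have hM3 : ∀ y, M3 y ⊆ M1 i0 y := by
    intro y
    simp only [M3]
    split_ifs with h
    · rw [h5 y (hYW y h) i0 0]
      exact g1 y
    · exact subset_rfl
  have hNe3 : Ne M3 := by
    intro y
    simp only [M3]
    split_ifs with h
    · have h7 := g3 y h
      have h8 := le_gR ((s + 1) * s + 1) D (s + 1) (k y)
      exact card_pos.1 (by omega)
    · exact h3 i0 y
  have hx3 : M3 x = {((e i0 : C) : K)} := by
    have h7 : x ∉ Y := fun h => (mem_sdiff.1 h).2 (mem_union_left _ (mem_insert_self _ _))
    have h8 : M3 x ⊆ {((e i0 : C) : K)} := by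
      refine (hM3 x).trans ((h1 i0 x).trans ?_)
      rw [hM0x]
    rcases subset_singleton_iff.1 h8 with h9 | h9
    · exact absurd (hNe3 x) (by rw [h9]; exact not_nonempty_empty)
    · exact h9
  refine ⟨(e i0 : C), (e i0).2, M3, fun y => (hM3 y).trans ((h1 i0 y).trans (hM0 i0 y)), hx3,
    ?_, hNe3, ?_, ?_⟩
  · intro w hw
    obtain ⟨a, ha⟩ := h2 i0 w hw
    refine ⟨a, ?_⟩
    have h7 : w ∉ Y := fun h => (mem_sdiff.1 h).2 (mem_union_left _ (mem_insert_of_mem hw))
    simp only [M3, if_neg h7, ha]
  · -- all players are wrong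
    intro v hv c hc
    by_cases hvx : v = x
    · subst hvx
      have hcv : c v = ((e i0 : C) : K) := by
        have := hc v
        rw [hx3] at this
        exact mem_singleton.1 this
      have hloc : g v c = g v (tl c) := by
        refine hg v _ _ fun w hw => ?_
        by_cases hwY : w ∈ Y
        · simp only [tl, if_pos hwY]
        · simp only [tl, if_neg hwY]
          have hwv : w ≠ v := fun h => G.loopless.irrefl v (h ▸ hw)
          have hA' : ∀ w ∈ A, c w = c0 w := by
            intro w hwA
            have hwv : w ≠ v := fun h => hxA (h ▸ hwA)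
            obtain ⟨a, ha⟩ := hSg w hwA
            have e1 : c w ∈ ({a} : Finset K) := by
              rw [← ha]
              exact ((hM3 w).trans ((h1 i0 w).trans (hM0 i0 w))) (hc w)
            have e2 : c0 w ∈ ({a} : Finset K) := by
              rw [← ha]
              exact ((h1 0 w).trans (hM0 0 w)) (hc0 w)
            rw [mem_singleton.1 e1, mem_singleton.1 e2]
          rcases hN w hw with h | h | ⟨h, h'⟩
          · exact hA' w (hu w h)
          · obtain ⟨a, ha⟩ := h2 i0 w (b.roots_subset h)
            have e1 : c w ∈ ({a} : Finset K) := by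
              rw [← ha]
              exact hM3 w (hc w)
            have e2 : c0 w ∈ ({a} : Finset K) := by
              rw [← ha, h5 w (mem_union_left _ h) i0 0]
              exact hc0 w
            rw [mem_singleton.1 e1, mem_singleton.1 e2]
          · have hwA : w ∈ A := by
              by_contra hwA
              apply hwY
              refine mem_sdiff.2 ⟨h, fun h'' => ?_⟩
              rcases mem_union.1 h'' with h'' | h''
              · rcases mem_insert.1 h'' with h'' | h''
                · exact hwv h''
                · exact h' h''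
              · exact hwA h''
            exact hA' w hwA
      rw [hloc, hcv]
      have hF0 : Fi c = i0 := by
        refine g4 c fun y hy => ?_
        have := hc y
        simp only [M3, if_pos hy] at this
        exact this
      rw [← hF0]
      exact hFi c
    · refine h4 i0 v ?_ c fun y => hM3 y (hc y)
      rcases mem_union.1 hv with h | h
      · rcases mem_insert.1 h with h | h
        · exact absurd h hvx
        · exact mem_union_left _ h
      · exact mem_union_right _ h
  · intro y hy
    by_cases hyY : y ∈ Y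
    · simp only [M3, if_pos hyY]
      exact g3 y hyY
    · simp only [M3, if_neg hyY]
      have hyH : y ∉ Hn x := fun h => hyY (mem_sdiff.2 ⟨h, hy⟩)
      have h7 := h6 i0 y (by
        intro h'
        apply hy
        rcases mem_union.1 h' with h'' | h''
        · exact mem_union_left _ (mem_insert_of_mem h'')
        · rcases mem_insert.1 h'' with rfl | h''
          · exact mem_union_left _ (mem_insert_self _ _)
          · exact mem_union_right _ h'')
      simp only [k', if_neg hyH, add_zero] at h7
      exact h7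

theorem fam_ok {D s : ℕ} {G : SimpleGraph V} {Hn : V → Finset V}
    {g : V → (V → K) → Finset K}
    (hg : ∀ v, ∀ c c' : V → K, (∀ w, G.Adj v w → c w = c' w) → g v c = g v c')
    (hs : ∀ v c, (g v c).card ≤ s) (hD : ∀ v, (Hn v).card ≤ D) (F : Fr V) :
    F.Nod → FamOK D s G Hn g F := by
  classical
  induction F with
  | nil =>
    intro _ x Wt A S k M _ _ _ _ _ _ h2 h3 h4 h5
    refine ⟨M, fun i y => subset_rfl, fun i w hw => absurd hw (notMem_empty w), h2, ?_, h4, ?_⟩
    · intro i
      rw [Fr.nodes, empty_union]
      exact h3 i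
    · intro i y hy
      rw [Fr.nodes, empty_union] at hy
      have := h5 i y hy
      simp only [costN, mul_zero, add_zero] at this
      exact this
  | cons z b t ihb iht =>
    rintro ⟨hzb, hzt, hbt, hbN, htN⟩ x Wt A S k M ⟨hNz, hwfb, hwft⟩ hxA hdis hroots hWt hSg hNe
      hGood hcom hSz
    set N := runs s (s + 1) with hNdef
    have hTree := tree_of_fam hg hs hD hzb hwfb (ihb hbN)
    rw [Fr.nodes, disjoint_insert_right, disjoint_union_right] at hdis
    obtain ⟨hzA, hAb, hAt⟩ := hdis
    have hzW : z ∈ Wt := hroots (by rw [Fr.roots]; exact mem_insert_self _ _)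
    have htr : t.roots ⊆ Wt := fun y hy => hroots (by rw [Fr.roots]; exact mem_insert_of_mem hy)
    have hWb : ∀ y ∈ Wt, y ∉ b.nodes := by
      intro y hy hyb
      have h1 := hWt y hy (by rw [Fr.nodes]; exact mem_insert_of_mem (mem_union_left _ hyb))
      rw [Fr.roots, mem_insert] at h1
      rcases h1 with rfl | h1
      · exact hzb hyb
      · exact disjoint_left.1 hbt hyb (t.roots_subset h1)
    have hMz : ∀ i, M i z = M 0 z := fun i => hcom z hzW i 0
    let tc : V → ℕ := fun y => treeN N Hn y z b
    let ct : V → ℕ := fun y => costN N Hn y t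
    have hcost : ∀ y, costN N Hn y (.cons z b t) = tc y + ct y := fun y => rfl
    let le : (V → Finset K) → (V → Finset K) → Prop := fun P' P => ∀ y ∈ Wt, y ≠ z → P' y ⊆ P y
    let Ok : ℕ → (V → Finset K) → Prop := fun n P =>
      (∀ y ∈ Wt, y ≠ z → (P y).Nonempty) ∧ (∀ y ∈ Wt, y ≠ z → P y ⊆ M 0 y) ∧
        ∀ y ∈ Wt, y ≠ z → y ∉ A →
          gR ((s + 1) * s + 1) D (s + 1) (k y + N * ct y + n * tc y) ≤ (P y).card
    let Ach : Fin (s + 1) → K → (V → Finset K) → Prop := fun i a P =>
      ∃ M' : V → Finset K, (∀ y, M' y ⊆ M i y) ∧ (∀ y ∈ Wt, y ≠ z → M' y = P y) ∧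
        M' z = {a} ∧ Sg b.nodes M' ∧ Ne M' ∧ Good g (insert z b.nodes ∪ S) M' ∧
        ∀ y, y ∉ insert z b.nodes ∪ A → y ∉ Wt →
          gR ((s + 1) * s + 1) D (s + 1) (k y + ct y) ≤ (M' y).card
    have hcommon := common (ι := Fin (s + 1)) s le (fun p y _ _ => subset_rfl)
      (fun a b c h1 h2 y hy hyz => (h1 y hy hyz).trans (h2 y hy hyz)) Ok Ach (M 0 z)
      (by
        -- shrinking the watched palettes
        rintro i a P P' n ⟨hP1, _, _⟩ hle ⟨M', m1, m2, m3, m4, m5, m6, m7⟩
        let M'' : V → Finset K := fun y => if y ∈ Wt ∧ y ≠ z then P' y else M' y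
        have hM'' : ∀ y, M'' y ⊆ M' y := by
          intro y
          simp only [M'']
          split_ifs with h
          · rw [m2 y h.1 h.2]
            exact hle y h.1 h.2
          · exact subset_rfl
        refine ⟨M'', fun y => (hM'' y).trans (m1 y), ?_, ?_, ?_, ?_, m6.mono subset_rfl hM'', ?_⟩
        · intro y hy hyz
          simp only [M'', if_pos (And.intro hy hyz)]
        · simp only [M'', ne_eq, not_true_eq_false, and_false, if_false, m3]
        · intro w hw
          obtain ⟨a', ha'⟩ := m4 w hw
          refine ⟨a', ?_⟩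
          simp only [M'', if_neg fun h : w ∈ Wt ∧ w ≠ z => hWb w h.1 hw, ha']
        · intro y
          simp only [M'']
          split_ifs with h
          · exact hP1 y h.1 h.2
          · exact m5 y
        · intro y hy hyW
          simp only [M'', if_neg fun h : y ∈ Wt ∧ y ≠ z => hyW h.1]
          exact m7 y hy hyW)
      (by
        -- one run
        rintro i n P C ⟨hP1, hP2, hP3⟩ hCM hCc
        let M1 : V → Finset K := fun y => if y ∈ Wt ∧ y ≠ z then P y else M i y
        have hM1 : ∀ y, M1 y ⊆ M i y := by
          intro y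
          simp only [M1]
          split_ifs with h
          · rw [hcom y h.1 i 0]
            exact hP2 y h.1 h.2
          · exact subset_rfl
        have hM1z : M1 z = M i z := by
          simp only [M1, ne_eq, not_true_eq_false, and_false, if_false]
        have hNe1 : Ne M1 := by
          intro y
          simp only [M1]
          split_ifs with h
          · exact hP1 y h.1 h.2
          · exact hNe i y
        obtain ⟨a, ha, M', m1, m2, m3, m4, m5, m6⟩ := hTree (some x) A S
          (fun y => if y ∈ Wt then k y + N * ct y + n * tc y else k y + ct y) M1 C hNz hzA hAb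
          (fun w hw => by rw [← Option.some.inj hw]; exact hxA)
          (fun w hw => by
            rw [sg_of_le (hSg i) hM1 hNe1 w hw]
            exact hSg i w hw)
          hNe1 ((hGood i).mono subset_rfl hM1)
          (by
            intro y hy
            have hyA : y ∉ A := fun h => hy (mem_insert_of_mem h)
            have hyz : y ≠ z := fun h => hy (h ▸ mem_insert_self _ _)
            by_cases hyW : y ∈ Wt
            · simp only [M1, if_pos (And.intro hyW hyz), if_pos hyW]
              refine le_trans (gR_mono _ _ _ ?_) (hP3 y hyW hyz hyA)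
              have h8 : (n + 1) * tc y = n * tc y + tc y := by ring
              rw [h8]
              simp only [← hNdef]
              change k y + N * ct y + n * tc y + tc y ≤ k y + N * ct y + (n * tc y + tc y)
              omega
            · simp only [M1, if_neg fun h : y ∈ Wt ∧ y ≠ z => hyW h.1, if_neg hyW]
              have h7 := hSz i y hyA
              simp only [if_neg hyW, hcost] at h7
              refine le_trans (gR_mono _ _ _ ?_) h7
              simp only [← hNdef]
              change k y + ct y + tc y ≤ k y + 1 * (tc y + ct y)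
              omega)
          (by rw [hM1z, hMz i]; exact hCM) hCc
        refine ⟨a, ha, M', ?_, ⟨?_, ?_, ?_⟩, M', fun y => (m1 y).trans (hM1 y), fun y _ _ => rfl,
          m2, m3, m4, m5, ?_⟩
        · intro y hy hyz
          have := m1 y
          simp only [M1, if_pos (And.intro hy hyz)] at this
          exact this
        · intro y _ _
          exact m4 y
        · intro y hy hyz
          rw [← hcom y hy i 0]
          exact (m1 y).trans (hM1 y)
        · intro y hy hyz hyA
          have h7 := m6 y (by
            intro h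
            rcases mem_union.1 h with h | h
            · rcases mem_insert.1 h with h | h
              · exact hyz h
              · exact hWb y hy h
            · exact hyA h)
          simp only [if_pos hy] at h7
          exact h7
        · intro y hy hyW
          have h7 := m6 y hy
          simp only [if_neg hyW] at h7
          exact h7)
      (List.finRange (s + 1)) (M 0 z) 0 (M 0) subset_rfl
      (by
        rw [List.length_finRange]
        have h7 := hSz 0 z hzA
        exact (le_gR _ _ _ _).trans h7)
      (by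
        rw [List.length_finRange, Nat.zero_add]
        refine ⟨fun y _ _ => hNe 0 y, fun y _ _ => subset_rfl, ?_⟩
        intro y hy hyz hyA
        have h7 := hSz 0 y hyA
        simp only [if_pos hy, hcost] at h7
        refine le_trans (gR_mono _ _ _ ?_) h7
        rw [← hNdef, Nat.mul_add]
        omega)
    obtain ⟨a, _, P', _, ⟨hP1, hP2, hP3⟩, hAch⟩ := hcommon
    have hAch' : ∀ i : Fin (s + 1), Ach i a P' := fun i => hAch i (List.mem_finRange i)
    choose M1 m1 m2 m3 m4 m5 m6 m7 using hAch'
    obtain ⟨M2, n1, n2, n3, n4, n5, n6⟩ := iht htN x Wt (insert z b.nodes ∪ A)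
      (insert z b.nodes ∪ S) k M1 hwft (mem_union_right _ hxA)
      (by
        rw [disjoint_union_left, disjoint_insert_left]
        exact ⟨⟨hzt, hbt⟩, hAt⟩)
      htr
      (by
        intro y hy hyt
        have h7 := hWt y hy (by rw [Fr.nodes]; exact mem_insert_of_mem (mem_union_right _ hyt))
        rw [Fr.roots, mem_insert] at h7
        rcases h7 with rfl | h7
        · exact absurd hyt hzt
        · exact h7)
      (by
        intro i w hw
        rcases mem_union.1 hw with h | h
        · rcases mem_insert.1 h with rfl | h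
          · exact ⟨a, m3 i⟩
          · exact m4 i w h
        · rw [sg_of_le (hSg i) (m1 i) (m5 i) w h]
          exact hSg i w h)
      m5 m6
      (by
        intro y hy i j
        by_cases hyz : y = z
        · subst hyz
          rw [m3, m3]
        · rw [m2 i y hy hyz, m2 j y hy hyz])
      (by
        intro i y hy
        by_cases hyW : y ∈ Wt
        · have hyz : y ≠ z := fun h => hy (mem_union_left _ (h ▸ mem_insert_self _ _))
          simp only [if_pos hyW]
          rw [m2 i y hyW hyz]
          have h7 := hP3 y hyW hyz fun h => hy (mem_union_right _ h)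
          rw [Nat.zero_mul, Nat.add_zero] at h7
          exact h7
        · simp only [if_neg hyW, Nat.one_mul]
          exact m7 i y hy hyW)
    refine ⟨M2, fun i y => (n1 i y).trans (m1 i y), ?_, n3, ?_, n5, ?_⟩
    · intro i w hw
      rw [Fr.nodes, mem_insert, mem_union] at hw
      by_cases hwt : w ∈ t.nodes
      · exact n2 i w hwt
      · have hS1 : Sg (insert z b.nodes) (M1 i) := by
          intro w hw
          rcases mem_insert.1 hw with rfl | h
          · exact ⟨a, m3 i⟩
          · exact m4 i w h
        have hw' : w ∈ insert z b.nodes := by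
          rw [mem_insert]
          tauto
        rw [sg_of_le hS1 (n1 i) (n3 i) w hw']
        exact hS1 w hw'
    · intro i
      refine (n4 i).mono ?_ fun y => subset_rfl
      intro v hv
      rw [Fr.nodes] at hv
      simp only [mem_union, mem_insert] at hv ⊢
      tauto
    · intro i y hy
      refine n6 i y fun h => hy ?_
      rw [Fr.nodes]
      simp only [mem_union, mem_insert] at h ⊢
      tauto

/-- The forest of the roots. -/
theorem root_ok {D s : ℕ} {G : SimpleGraph V} {Hn : V → Finset V}
    {g : V → (V → K) → Finset K}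
    (hg : ∀ v, ∀ c c' : V → K, (∀ w, G.Adj v w → c w = c' w) → g v c = g v c')
    (hs : ∀ v c, (g v c).card ≤ s) (hD : ∀ v, (Hn v).card ≤ D) (F : Fr V) :
    ∀ (A S : Finset V) (k : V → ℕ) (M : V → Finset K), F.Nod → Wf G Hn none F →
      Disjoint A F.nodes → Sg A M → Ne M → Good g S M →
      Sz D s (fun y => k y + costN (runs s (s + 1)) Hn y F) A M →
      ∃ M' : V → Finset K, (∀ y, M' y ⊆ M y) ∧ Ne M' ∧ Good g (F.nodes ∪ S) M' := by
  classical
  induction F with
  | nil =>
    intro A S k M _ _ _ _ h2 h3 _
    refine ⟨M, fun y => subset_rfl, h2, ?_⟩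
    rw [Fr.nodes, empty_union]
    exact h3
  | cons z b t _ iht =>
    rintro A S k M ⟨hzb, hzt, hbt, hbN, htN⟩ ⟨hNz, hwfb, hwft⟩ hdis hSg hNe hGood hSz
    set N := runs s (s + 1) with hNdef
    have hTree := tree_of_fam hg hs hD hzb hwfb (fam_ok hg hs hD b hbN)
    rw [Fr.nodes, disjoint_insert_right, disjoint_union_right] at hdis
    obtain ⟨hzA, hAb, hAt⟩ := hdis
    have hz : s + 1 ≤ (M z).card := by
      refine le_trans ?_ ((le_gR _ _ _ _).trans (hSz z hzA))
      nlinarith
    obtain ⟨C, hC, hCc⟩ := exists_subset_card_eq hz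
    obtain ⟨a, _, M', m1, m2, m3, m4, m5, m6⟩ := hTree none A S
      (fun y => k y + costN N Hn y t) M C hNz hzA hAb (fun w hw => absurd hw (by simp)) hSg hNe
      hGood
      (by
        intro y hy
        have h7 := hSz y fun h => hy (mem_insert_of_mem h)
        refine le_trans (gR_mono _ _ _ ?_) h7
        simp only [← hNdef]
        change k y + costN N Hn y t + treeN N Hn y z b ≤ k y + (treeN N Hn y z b + costN N Hn y t)
        omega)
      hC hCc
    have hS1 : Sg (insert z b.nodes ∪ A) M' := by
      intro w hw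
      rcases mem_union.1 hw with h | h
      · rcases mem_insert.1 h with rfl | h
        · exact ⟨a, m2⟩
        · exact m3 w h
      · rw [sg_of_le hSg m1 m4 w h]
        exact hSg w h
    obtain ⟨M2, n1, n2, n3⟩ := iht (insert z b.nodes ∪ A) (insert z b.nodes ∪ S) k M' htN hwft
      (by
        rw [disjoint_union_left, disjoint_insert_left]
        exact ⟨⟨hzt, hbt⟩, hAt⟩)
      hS1 m4 m5 m6
    refine ⟨M2, fun y => (n1 y).trans (m1 y), n2, n3.mono ?_ fun y => subset_rfl⟩
    intro v hv
    rw [Fr.nodes] at hv
    simp only [mem_union, mem_insert] at hv ⊢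
    tauto

theorem costN_le_pow {N : ℕ} (hN : 1 ≤ N) (Hn : V → Finset V) (y : V) (F : Fr V) :
    costN N Hn y F ≤ numH Hn y F * N ^ (numH Hn y F + numP y F) := by
  induction F with
  | nil => exact Nat.zero_le _
  | cons x b t ihb iht =>
    rw [costN, numH, numP]
    set h := (if y ∈ Hn x then 1 else 0 : ℕ) with hh
    set p := (if y ∈ b.roots then 1 else 0 : ℕ) with hp
    have h1 : (if y ∈ b.roots ∪ Hn x then N else 1 : ℕ) ≤ N ^ (h + p) := by
      split_ifs with hu
      · rw [mem_union] at hu
        have : 1 ≤ h + p := by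
          rcases hu with hu | hu
          · rw [hp, if_pos hu]; omega
          · rw [hh, if_pos hu]; omega
        calc N = N ^ 1 := (pow_one N).symm
          _ ≤ _ := Nat.pow_le_pow_right hN this
      · exact Nat.one_le_pow _ _ hN
    set n := numH Hn y b
    set m := numH Hn y t
    set a := numP y b
    set c := numP y t
    have e1 : (if y ∈ b.roots ∪ Hn x then N else 1 : ℕ) * costN N Hn y b ≤
        n * N ^ (h + n + m + (p + a + c)) := by
      calc _ ≤ N ^ (h + p) * (n * N ^ (n + a)) := Nat.mul_le_mul h1 ihb
        _ = n * N ^ (h + p + (n + a)) := by rw [pow_add N (h + p)]; ring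
        _ ≤ _ := Nat.mul_le_mul_left _ (Nat.pow_le_pow_right hN (by omega))
    have e2 : costN N Hn y t ≤ m * N ^ (h + n + m + (p + a + c)) :=
      iht.trans (Nat.mul_le_mul_left _ (Nat.pow_le_pow_right hN (by omega)))
    have e3 : h ≤ h * N ^ (h + n + m + (p + a + c)) :=
      Nat.le_mul_of_pos_right _ (Nat.pow_pos (by omega))
    calc _ ≤ h * N ^ (h + n + m + (p + a + c)) + n * N ^ (h + n + m + (p + a + c)) +
        m * N ^ (h + n + m + (p + a + c)) := Nat.add_le_add (Nat.add_le_add e3 e1) e2
      _ = _ := by ring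

/-- The number of colours which is enough for forest plus maximum degree `D` (after the
reduction), `s` guesses. -/
def qF (D s : ℕ) : ℕ := gR ((s + 1) * s + 1) D (s + 1) (D * runs s (s + 1) ^ (D + 1))

/-- The players lose with `s` guesses and `qF D s` colours. -/
theorem forest_main {V : Type} [DecidableEq V] {D s : ℕ} {G : SimpleGraph V}
    {Hn : V → Finset V} {g : V → (V → ℕ) → Finset ℕ}
    (hg : ∀ v, ∀ c c' : V → ℕ, (∀ w, G.Adj v w → c w = c' w) → g v c = g v c')
    (hs : ∀ v c, (g v c).card ≤ s) (hsym : ∀ x y, y ∈ Hn x → x ∈ Hn y)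
    (hD : ∀ v, (Hn v).card ≤ D) (F : Fr V) (hF : F.Nod) (hwf : Wf G Hn none F) {q : ℕ}
    (hq : qF D s ≤ q) : ∃ c : V → ℕ, (∀ v, c v < q) ∧ ∀ v ∈ F.nodes, c v ∉ g v c := by
  classical
  have hN1 : 1 ≤ runs s (s + 1) := by rw [runs]; omega
  have hpos : 1 ≤ qF D s := le_trans (by omega) (le_gR ((s + 1) * s + 1) D (s + 1) _)
  obtain ⟨M', h1, h2, h3⟩ := root_ok hg hs hD F ∅ ∅ (fun _ => 0) (fun _ => range q) hF hwf
    (disjoint_empty_left _) (fun w hw => absurd hw (notMem_empty w))
    (fun y => ⟨0, mem_range.2 (by omega)⟩) (fun v hv => absurd hv (notMem_empty v))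
    (by
      intro y _
      rw [card_range]
      refine le_trans (gR_mono _ _ _ ?_) hq
      change 0 + costN (runs s (s + 1)) Hn y F ≤ _
      rw [Nat.zero_add]
      have h1 := numH_le D Hn hsym hD y F hF
      have h2 := numP_le_one y F hF
      exact (costN_le_pow hN1 Hn y F).trans
        (Nat.mul_le_mul h1 (Nat.pow_le_pow_right hN1 (by omega))))
  choose c hc using h2
  refine ⟨c, fun v => mem_range.1 (h1 v (hc v)), fun v hv => ?_⟩
  exact h3 v (mem_union_left _ hv) c hc

end Pool.Agent.Lib.MP_994fee_co.FB
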