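import Pool.Agent.Lib.MP_994fee_co.TreeLike
import Pool.Agent.Lib.MP_994fee_co.FB.MainS41
import Pool.Agent.Lib.MP_994fee_co.FB.Build76
import Pool.Agent.Lib.MP_994fee_co.FB.Acyc41

/-!
# Forest plus bounded degree on a set of vertices: the players lose with `s` guesses
-/

set_option autoImplicit false

namespace Pool.Agent.Lib.MP_994fee_co.FB

open Finset

/-- The graph on `S` is the union of a forest and a graph of maximum degree at most `n`. -/
def ForestPlusOn {V : Type} (n : ℕ) (G : SimpleGraph V) (S : Finset V) : Prop :=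
  ∃ T H : SimpleGraph V, T.IsAcyclic ∧ (∀ v ∈ S, {w | w ∈ S ∧ H.Adj v w}.ncard ≤ n) ∧
    ∀ v ∈ S, ∀ w ∈ S, G.Adj v w → T.Adj v w ∨ H.Adj v w

theorem forestPlusOn_loses (n s : ℕ) : ∃ q : ℕ, 0 < q ∧ ∀ {V : Type} (G : SimpleGraph V)
    (S : Finset V), ForestPlusOn n G S → TL.LosesOn G S s q := by
  classical
  refine ⟨qF (2 * n + 1) s, lt_of_lt_of_le (by omega)
    (le_gR ((s + 1) * s + 1) (2 * n + 1) (s + 1) _), ?_⟩
  rintro V G S ⟨T, H, hT, hH, hTH⟩ g hg hgs
  have hq0 : 0 < qF (2 * n + 1) s := lt_of_lt_of_le (by omega)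
    (le_gR ((s + 1) * s + 1) (2 * n + 1) (s + 1) _)
  let ext : (S → ℕ) → V → ℕ := fun c v => if h : v ∈ S then c ⟨v, h⟩ else 0
  have hext : ∀ (c : S → ℕ) (v : S), ext c v = c v := by
    intro c v
    simp only [ext, v.2, dif_pos]
  let G' : SimpleGraph S := G.comap (fun v : S => (v : V))
  let T' : SimpleGraph S := T.comap (fun v : S => (v : V))
  let H' : SimpleGraph S := H.comap (fun v : S => (v : V))
  have hT' : T'.IsAcyclic := hT.of_comap ⟨fun v : S => (v : V), Subtype.val_injective⟩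
  obtain ⟨F, Hn, h1, h2, h3, h4, h5⟩ := exists_fr n G' T' H'
    (by
      intro v w h
      exact hTH v v.2 w w.2 h)
    (exists_rank T' hT')
    (by
      intro v
      refine le_trans ?_ (hH v v.2)
      refine Set.ncard_le_ncard_of_injOn (fun w : S => (w : V)) ?_ Subtype.val_injective.injOn
        ((S.finite_toSet).subset fun w hw => hw.1)
      intro w hw
      exact ⟨w.2, hw⟩)
  obtain ⟨c, hc1, hc2⟩ := forest_main (V := S) (s := s) (D := 2 * n + 1) (G := G') (Hn := Hn)
    (g := fun v c => g v (ext c))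
    (by
      intro v c c' h
      refine hg v v.2 _ _ fun u hu huv => ?_
      have := h ⟨u, hu⟩ huv
      have e1 := hext c ⟨u, hu⟩
      have e2 := hext c' ⟨u, hu⟩
      simp only at e1 e2
      rw [e1, e2, this])
    (fun v c => hgs v v.2 _) h3 h4 F h1 h5 (q := qF (2 * n + 1) s) le_rfl
  refine ⟨ext c, ?_, ?_⟩
  · intro v
    by_cases hv : v ∈ S
    · have := hext c ⟨v, hv⟩
      simp only at this
      rw [this]
      exact hc1 _
    · simp only [ext, hv, dif_neg, not_false_eq_true]
      exact hq0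
  · intro v hv
    have e := hext c ⟨v, hv⟩
    simp only at e
    rw [e]
    exact hc2 ⟨v, hv⟩ (h2 _)

end Pool.Agent.Lib.MP_994fee_co.FB
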