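import Mathlib

/-!
# Row N: density below two gives forest plus bounded degree (one application of Hall's theorem)

`mad(G) ≤ 4 - 1/m` implies `G ≤ T ⊔ H` with an increasing rooted forest `T` and `H` of maximum
degree at most `4 m + 5`.
-/

set_option autoImplicit false
set_option linter.unusedSectionVars false

namespace Pool.Agent.Lib.MP_994fee_co.FB

open Finset

namespace RowN62

variable {V : Type} [Fintype V] [DecidableEq V]

/-- every set of vertices spans few edges: `∑_{x ∈ W} deg_W x ≤ (4 - 1/m) |W|` -/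
def Sparse62 (m : ℕ) (G : SimpleGraph V) : Prop :=
  ∀ W : Finset V, m * ({p : V × V | p.1 ∈ W ∧ p.2 ∈ W ∧ G.Adj p.1 p.2} : Set (V × V)).ncard +
    W.card ≤ 4 * m * W.card

/-- degeneracy order -/
lemma exists_rank (G : SimpleGraph V) (k : ℕ)
    (h : ∀ W : Finset V, W.Nonempty → ∃ x ∈ W, ({w | w ∈ W ∧ G.Adj x w} : Set V).ncard ≤ k) :
    ∃ rk : V → ℕ, Function.Injective rk ∧ ∀ v, {w | G.Adj v w ∧ rk w < rk v}.ncard ≤ k := by
  classical
  have key : ∀ n : ℕ, ∀ W : Finset V, W.card = n → ∃ rk : V → ℕ, Set.InjOn rk W ∧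
      (∀ x ∈ W, rk x < n) ∧ ∀ v ∈ W, {w | w ∈ W ∧ G.Adj v w ∧ rk w < rk v}.ncard ≤ k := by
    intro n
    induction n with
    | zero =>
      intro W hW
      have hW0 : W = ∅ := Finset.card_eq_zero.1 hW
      subst hW0
      exact ⟨fun _ => 0, by simp, by simp, by simp⟩
    | succ n ih =>
      intro W hW
      have hne : W.Nonempty := by
        rw [← Finset.card_pos]; omega
      obtain ⟨x, hx, hxk⟩ := h W hne
      obtain ⟨rk, hi, hlt, hk⟩ := ih (W.erase x) (by rw [Finset.card_erase_of_mem hx]; omega)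
      refine ⟨fun y => if y = x then n else rk y, ?_, ?_, ?_⟩
      · intro a ha b hb hab
        simp only at hab
        by_cases h1 : a = x <;> by_cases h2 : b = x
        · rw [h1, h2]
        · rw [if_pos h1, if_neg h2] at hab
          have := hlt b (Finset.mem_erase.2 ⟨h2, hb⟩)
          omega
        · rw [if_neg h1, if_pos h2] at hab
          have := hlt a (Finset.mem_erase.2 ⟨h1, ha⟩)
          omega
        · rw [if_neg h1, if_neg h2] at hab
          exact hi (Finset.mem_coe.2 (Finset.mem_erase.2 ⟨h1, ha⟩))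
            (Finset.mem_coe.2 (Finset.mem_erase.2 ⟨h2, hb⟩)) hab
      · intro y hy
        by_cases h1 : y = x
        · simp [h1]
        · simp only [if_neg h1]
          have := hlt y (Finset.mem_erase.2 ⟨h1, hy⟩)
          omega
      · intro v hv
        by_cases h1 : v = x
        · subst h1
          refine le_trans (Set.ncard_le_ncard ?_ (Set.toFinite _)) hxk
          intro w hw
          exact ⟨hw.1, hw.2.1⟩
        · have hvW : v ∈ W.erase x := Finset.mem_erase.2 ⟨h1, hv⟩
          refine le_trans (Set.ncard_le_ncard ?_ (Set.toFinite _)) (hk v hvW)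
          rintro w ⟨hw1, hw2, hw3⟩
          have hv' := hlt v hvW
          have hwx : w ≠ x := by
            intro hwx
            simp only [if_pos hwx, if_neg h1] at hw3
            omega
          simp only [if_neg hwx, if_neg h1] at hw3
          exact ⟨Finset.mem_erase.2 ⟨hwx, hw1⟩, hw2, hw3⟩
  obtain ⟨rk, hi, -, hk⟩ := key _ (Finset.univ : Finset V) rfl
  refine ⟨rk, fun a b hab => hi (by simp) (by simp) hab, fun v => ?_⟩
  have := hk v (Finset.mem_univ v)
  simpa using this

/-- a sparse graph has a vertex with at most three neighbours in every nonempty set -/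
lemma exists_low {m : ℕ} {G : SimpleGraph V} (hG : Sparse62 m G)
    (W : Finset V) (hW : W.Nonempty) :
    ∃ x ∈ W, ({w | w ∈ W ∧ G.Adj x w} : Set V).ncard ≤ 3 := by
  classical
  by_contra hcon
  push Not at hcon
  have h1 := hG W
  have hcard : ({p : V × V | p.1 ∈ W ∧ p.2 ∈ W ∧ G.Adj p.1 p.2} : Set (V × V)).ncard =
      ∑ x ∈ W, ({w | w ∈ W ∧ G.Adj x w} : Set V).ncard := by
    have e1 : ({p : V × V | p.1 ∈ W ∧ p.2 ∈ W ∧ G.Adj p.1 p.2} : Set (V × V)) =
        ((W.sigma fun x => W.filter fun w => G.Adj x w).map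
          ⟨fun s : (Σ _ : V, V) => (s.1, s.2), by
            rintro ⟨a, b⟩ ⟨c, d⟩ hh
            simp only [Prod.mk.injEq] at hh
            rw [hh.1, hh.2]⟩ : Finset (V × V)) := by
      ext p
      simp only [Set.mem_ofPred_eq, Finset.coe_map, Function.Embedding.coeFn_mk, Set.mem_image,
        Finset.mem_coe, Finset.mem_sigma, Finset.mem_filter]
      constructor
      · rintro ⟨h1, h2, h3⟩
        exact ⟨⟨p.1, p.2⟩, ⟨h1, h2, h3⟩, rfl⟩
      · rintro ⟨⟨a, b⟩, ⟨h1, h2, h3⟩, rfl⟩
        exact ⟨h1, h2, h3⟩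
    rw [e1, Set.ncard_coe_finset, Finset.card_map, Finset.card_sigma]
    refine Finset.sum_congr rfl fun x _ => ?_
    rw [← Set.ncard_coe_finset]
    congr 1
    ext w
    simp
  have h2 : 4 * W.card ≤
      ({p : V × V | p.1 ∈ W ∧ p.2 ∈ W ∧ G.Adj p.1 p.2} : Set (V × V)).ncard := by
    rw [hcard, mul_comm, ← smul_eq_mul]
    exact Finset.card_nsmul_le_sum _ _ _ fun x hx => hcon x hx
  have h3 : 0 < W.card := Finset.card_pos.2 hW
  nlinarith [Nat.mul_le_mul_left m h2]

/-- the count for Hall's theorem -/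
lemma hall_count (m : ℕ) (E : Finset (V × V)) 
    (hd : ∀ W : Finset V, 2 * m * (E.filter fun p => p.1 ∈ W ∧ p.2 ∈ W).card + W.card ≤
      4 * m * W.card) :
    ∀ (n : ℕ) (S : Finset (V × V)), S.card = n → S ⊆ E →
      S.card ≤ (S.image Prod.fst).card + (4 * m + 2) * (S.image Prod.snd).card := by
  intro n
  induction n with
  | zero => intro S hS _; omega
  | succ n ih =>
    intro S hS hSE
    by_cases hone : ∃ u ∈ S.image Prod.fst, (S.filter fun p => p.1 = u).card ≤ 1
    · obtain ⟨u, hu, hu1⟩ := hone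
      obtain ⟨p, hp, hpu⟩ := Finset.mem_image.1 hu
      have hS' : (S.erase p).card = n := by rw [Finset.card_erase_of_mem hp]; omega
      have h1 := ih (S.erase p) hS' ((Finset.erase_subset _ _).trans hSE)
      have h2 : ((S.erase p).image Prod.fst).card + 1 ≤ (S.image Prod.fst).card := by
        have hsub : (S.erase p).image Prod.fst ⊆ (S.image Prod.fst).erase u := by
          intro y hy
          obtain ⟨q, hq, hqy⟩ := Finset.mem_image.1 hy
          obtain ⟨hqp, hqS⟩ := Finset.mem_erase.1 hq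
          refine Finset.mem_erase.2 ⟨?_, Finset.mem_image.2 ⟨q, hqS, hqy⟩⟩
          intro hyu
          apply hqp
          exact Finset.card_le_one.1 hu1 q (Finset.mem_filter.2 ⟨hqS, hqy.trans hyu⟩) p
            (Finset.mem_filter.2 ⟨hp, hpu⟩)
        have := Finset.card_le_card hsub
        rw [Finset.card_erase_of_mem hu] at this
        have : 0 < (S.image Prod.fst).card := Finset.card_pos.2 ⟨u, hu⟩
        omega
      have h3 : ((S.erase p).image Prod.snd).card ≤ (S.image Prod.snd).card :=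
        Finset.card_le_card (Finset.image_subset_image (Finset.erase_subset _ _))
      have h4 := Nat.mul_le_mul_left (4 * m + 2) h3
      omega
    · push Not at hone
      set a := (S.image Prod.fst).card with ha
      set b := (S.image Prod.snd).card with hb
      have h2 : 2 * a ≤ S.card := by
        rw [Finset.card_eq_sum_card_image Prod.fst S, mul_comm, ← smul_eq_mul, ha]
        exact Finset.card_nsmul_le_sum _ _ _ fun x hx => hone x hx
      set W := S.image Prod.fst ∪ S.image Prod.snd with hW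
      have h3 : S.card ≤ (E.filter fun p => p.1 ∈ W ∧ p.2 ∈ W).card := by
        apply Finset.card_le_card
        intro p hp
        refine Finset.mem_filter.2 ⟨hSE hp, ?_, ?_⟩
        · exact Finset.mem_union_left _ (Finset.mem_image_of_mem _ hp)
        · exact Finset.mem_union_right _ (Finset.mem_image_of_mem _ hp)
      have h4 : W.card ≤ a + b := Finset.card_union_le _ _
      have h5 := hd W
      have h6 := Nat.mul_le_mul_left (2 * m) h3
      rcases Nat.eq_zero_or_pos m with hm | hm
      · subst hm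
        have hW0 : W.card = 0 := by omega
        have : S = ∅ := by
          rw [Finset.card_eq_zero, hW, Finset.union_eq_empty] at hW0
          exact Finset.image_eq_empty.1 hW0.1
        rw [this] at hS
        simp at hS
      · -- `2 m |S| + |W| ≤ 4 m |W|`
        obtain ⟨w, hw⟩ : ∃ w, w = W.card := ⟨_, rfl⟩
        obtain ⟨s, hs⟩ : ∃ s, s = S.card := ⟨_, rfl⟩
        rw [← hw] at h4 h5
        rw [← hs] at h2 h6 ⊢
        have h7 : 2 * m * s + w ≤ 4 * m * w := by omega
        obtain ⟨m', rfl⟩ : ∃ m', m = m' + 1 := ⟨m - 1, by omega⟩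
        have h8 : 2 * (m' + 1) * s ≤ (4 * m' + 3) * w := by nlinarith
        have h9 : 2 * (m' + 1) * s ≤ (4 * m' + 3) * (a + b) :=
          h8.trans (Nat.mul_le_mul_left _ h4)
        have h10 : 2 * (m' + 1) * (2 * a) ≤ (4 * m' + 3) * (a + b) :=
          (Nat.mul_le_mul_left _ h2).trans h9
        have h11 : a ≤ (4 * m' + 3) * b := by nlinarith
        have h12 : s ≤ 2 * (a + b) := by
          by_contra hc
          push Not at hc
          have : 2 * (m' + 1) * (2 * (a + b) + 1) ≤ 2 * (m' + 1) * s := Nat.mul_le_mul_left _ hc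
          nlinarith
        nlinarith

/-- **Row N.** -/
theorem row_n {m : ℕ} (G : SimpleGraph V) (hG : Sparse62 m G) :
    ∃ T H : SimpleGraph V, G ≤ T ⊔ H ∧
      (∃ rk : V → ℕ, Function.Injective rk ∧ ∀ v, {w | T.Adj v w ∧ rk w < rk v}.ncard ≤ 1) ∧
      ∀ v, {w | H.Adj v w}.ncard ≤ 4 * m + 5 := by
  classical
  obtain ⟨rk, hrk, h3⟩ := exists_rank G 3 fun W hW => exists_low hG W hW
  set E : Finset (V × V) := Finset.univ.filter fun p => G.Adj p.1 p.2 ∧ rk p.2 < rk p.1 with hE
  have hd : ∀ W : Finset V, 2 * m * (E.filter fun p => p.1 ∈ W ∧ p.2 ∈ W).card + W.card ≤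
      4 * m * W.card := by
    intro W
    have h1 := hG W
    have h2 : 2 * (E.filter fun p => p.1 ∈ W ∧ p.2 ∈ W).card ≤
        ({p : V × V | p.1 ∈ W ∧ p.2 ∈ W ∧ G.Adj p.1 p.2} : Set (V × V)).ncard := by
      set A := E.filter fun p => p.1 ∈ W ∧ p.2 ∈ W with hA
      have hdis : Disjoint A (A.image Prod.swap) := by
        rw [Finset.disjoint_left]
        intro p hp hq
        obtain ⟨q, hq1, rfl⟩ := Finset.mem_image.1 hq
        simp only [hA, hE, Finset.mem_filter, Finset.mem_univ, true_and, Prod.fst_swap,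
          Prod.snd_swap] at hp hq1
        have := hp.1.2
        have := hq1.1.2
        omega
      have hcard : (A.image Prod.swap).card = A.card :=
        Finset.card_image_of_injective _ Prod.swap_injective
      have h4 : A.card + A.card = (A ∪ A.image Prod.swap).card := by
        rw [Finset.card_union_of_disjoint hdis, hcard]
      rw [two_mul, h4, ← Set.ncard_coe_finset]
      refine Set.ncard_le_ncard ?_ (Set.toFinite _)
      intro p hp
      rcases Finset.mem_union.1 (Finset.mem_coe.1 hp) with hp | hp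
      · simp only [hA, hE, Finset.mem_filter, Finset.mem_univ, true_and] at hp
        exact ⟨hp.2.1, hp.2.2, hp.1.1⟩
      · obtain ⟨q, hq1, rfl⟩ := Finset.mem_image.1 hp
        simp only [hA, hE, Finset.mem_filter, Finset.mem_univ, true_and] at hq1
        exact ⟨hq1.2.2, hq1.2.1, hq1.1.1.symm⟩
    have h5 := Nat.mul_le_mul_left m h2
    nlinarith
  -- Hall
  let D := 4 * m + 2
  let t : {p : V × V // p ∈ E} → Finset (V ⊕ (V × Fin D)) := fun p =>
    insert (Sum.inl p.1.1) ((Finset.univ : Finset (Fin D)).image fun i => Sum.inr (p.1.2, i))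
  have hall : ∀ s : Finset {p : V × V // p ∈ E}, s.card ≤ (s.biUnion t).card := by
    intro s
    set S : Finset (V × V) := s.image Subtype.val with hS
    have hSc : S.card = s.card := Finset.card_image_of_injective _ Subtype.val_injective
    have hSE : S ⊆ E := by
      intro p hp
      obtain ⟨q, -, rfl⟩ := Finset.mem_image.1 hp
      exact q.2
    have h1 := hall_count m E hd _ S rfl hSE
    rw [hSc] at h1
    refine h1.trans ?_
    have h2 : ((S.image Prod.fst).image (Sum.inl : V → V ⊕ (V × Fin D)) ∪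
        ((S.image Prod.snd) ×ˢ (Finset.univ : Finset (Fin D))).image Sum.inr) ⊆ s.biUnion t := by
      intro x hx
      rcases Finset.mem_union.1 hx with hx | hx
      · obtain ⟨u, hu, rfl⟩ := Finset.mem_image.1 hx
        obtain ⟨p, hp, rfl⟩ := Finset.mem_image.1 hu
        obtain ⟨q, hq, rfl⟩ := Finset.mem_image.1 hp
        exact Finset.mem_biUnion.2 ⟨q, hq, Finset.mem_insert_self _ _⟩
      · obtain ⟨⟨v, i⟩, hu, rfl⟩ := Finset.mem_image.1 hx
        obtain ⟨hv, -⟩ := Finset.mem_product.1 hu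
        obtain ⟨p, hp, hpv⟩ := Finset.mem_image.1 hv
        obtain ⟨q, hq, rfl⟩ := Finset.mem_image.1 hp
        refine Finset.mem_biUnion.2 ⟨q, hq, Finset.mem_insert_of_mem ?_⟩
        refine Finset.mem_image.2 ⟨i, Finset.mem_univ _, ?_⟩
        simp only at hpv
        rw [hpv]
    refine le_trans (le_of_eq ?_) (Finset.card_le_card h2)
    rw [Finset.card_union_of_disjoint, Finset.card_image_of_injective _ Sum.inl_injective,
      Finset.card_image_of_injective _ Sum.inr_injective, Finset.card_product, Finset.card_univ,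
      Fintype.card_fin, mul_comm]
    rw [Finset.disjoint_left]
    intro x hx hy
    obtain ⟨a, -, rfl⟩ := Finset.mem_image.1 hx
    obtain ⟨b, -, hb⟩ := Finset.mem_image.1 hy
    cases hb
  obtain ⟨f, hf, hft⟩ := (Finset.all_card_le_biUnion_card_iff_exists_injective t).1 hall
  have hEm : ∀ u v, (u, v) ∈ E ↔ G.Adj u v ∧ rk v < rk u := by
    intro u v; simp [hE]
  refine ⟨SimpleGraph.fromRel fun u v => ∃ h : (u, v) ∈ E, f ⟨(u, v), h⟩ = Sum.inl u,
    SimpleGraph.fromRel fun u v => ∃ h : (u, v) ∈ E, ∃ i : Fin D, f ⟨(u, v), h⟩ = Sum.inr (v, i),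
    ?_, ⟨rk, hrk, ?_⟩, ?_⟩
  · -- the edges of `G`
    have hcov : ∀ u v, (h : (u, v) ∈ E) → f ⟨(u, v), h⟩ = Sum.inl u ∨
        ∃ i : Fin D, f ⟨(u, v), h⟩ = Sum.inr (v, i) := by
      intro u v h
      rcases Finset.mem_insert.1 (hft ⟨(u, v), h⟩) with h1 | h1
      · exact Or.inl h1
      · obtain ⟨i, -, hi⟩ := Finset.mem_image.1 h1
        exact Or.inr ⟨i, hi.symm⟩
    intro u v huv
    rw [SimpleGraph.sup_adj, SimpleGraph.fromRel_adj, SimpleGraph.fromRel_adj]
    have hne : u ≠ v := huv.ne
    rcases lt_or_gt_of_ne (fun h => hne (hrk h)) with hlt | hlt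
    · have hm' : (v, u) ∈ E := (hEm v u).2 ⟨huv.symm, hlt⟩
      rcases hcov v u hm' with h1 | ⟨i, h1⟩
      · exact Or.inl ⟨hne, Or.inr ⟨hm', h1⟩⟩
      · exact Or.inr ⟨hne, Or.inr ⟨hm', i, h1⟩⟩
    · have hm' : (u, v) ∈ E := (hEm u v).2 ⟨huv, hlt⟩
      rcases hcov u v hm' with h1 | ⟨i, h1⟩
      · exact Or.inl ⟨hne, Or.inl ⟨hm', h1⟩⟩
      · exact Or.inr ⟨hne, Or.inl ⟨hm', i, h1⟩⟩
  · -- the forest
    intro v
    rw [Set.ncard_le_one (Set.toFinite _)]
    have hone : ∀ w, (SimpleGraph.fromRel fun u v => ∃ h : (u, v) ∈ E,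
        f ⟨(u, v), h⟩ = Sum.inl u).Adj v w → rk w < rk v →
        ∃ h : (v, w) ∈ E, f ⟨(v, w), h⟩ = Sum.inl v := by
      intro w hw hlt
      rw [SimpleGraph.fromRel_adj] at hw
      rcases hw.2 with h | ⟨h, -⟩
      · exact h
      · have := ((hEm w v).1 h).2
        omega
    rintro w ⟨hw1, hw2⟩ w' ⟨hw1', hw2'⟩
    obtain ⟨h, he⟩ := hone w hw1 hw2
    obtain ⟨h', he'⟩ := hone w' hw1' hw2'
    have := hf (he.trans he'.symm)
    simpa using this
  · -- the degrees
    intro v
    have hsub : {w | (SimpleGraph.fromRel fun u v => ∃ h : (u, v) ∈ E, ∃ i : Fin D,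
        f ⟨(u, v), h⟩ = Sum.inr (v, i)).Adj v w} ⊆
        {w | G.Adj v w ∧ rk w < rk v} ∪
          {w | ∃ h : (w, v) ∈ E, ∃ i : Fin D, f ⟨(w, v), h⟩ = Sum.inr (v, i)} := by
      intro w hw
      rw [Set.mem_ofPred_eq, SimpleGraph.fromRel_adj] at hw
      rcases hw.2 with ⟨h, -⟩ | h
      · exact Or.inl ((hEm v w).1 h)
      · exact Or.inr h
    refine (Set.ncard_le_ncard hsub (Set.toFinite _)).trans ((Set.ncard_union_le _ _).trans ?_)
    have h4 : ({w | ∃ h : (w, v) ∈ E, ∃ i : Fin D, f ⟨(w, v), h⟩ = Sum.inr (v, i)} :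
        Set V).ncard ≤ D := by
      have h5 : ∀ w ∈ ({w | ∃ h : (w, v) ∈ E, ∃ i : Fin D, f ⟨(w, v), h⟩ = Sum.inr (v, i)} :
          Set V), ∃ i : Fin D, ∃ h : (w, v) ∈ E, f ⟨(w, v), h⟩ = Sum.inr (v, i) := by
        rintro w ⟨h, i, hi⟩
        exact ⟨i, h, hi⟩
      choose! g hg using h5
      have h6 : Set.InjOn g {w | ∃ h : (w, v) ∈ E, ∃ i : Fin D,
          f ⟨(w, v), h⟩ = Sum.inr (v, i)} := by
        intro a ha b hb hab
        obtain ⟨h, e1⟩ := hg a ha
        obtain ⟨h', e2⟩ := hg b hb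
        rw [hab] at e1
        have := hf (e1.trans e2.symm)
        simpa using this
      have h7 := Set.ncard_le_ncard_of_injOn g (t := (Set.univ : Set (Fin D)))
        (fun a _ => Set.mem_univ _) h6 (Set.toFinite _)
      rwa [Set.ncard_univ, Nat.card_eq_fintype_card, Fintype.card_fin] at h7
    have h8 := h3 v
    show _ + _ ≤ 4 * m + 5
    have hD : D = 4 * m + 2 := rfl
    omega

end RowN62

end Pool.Agent.Lib.MP_994fee_co.FB
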